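import Pool.Agent.Lib.Cx.NP

/-!
# Complexity library: how to use it

Open the namespace `Pool.Agent.Lib.Cx`. Everything is about the Prelude notions
`N68a2faeb.IsPolyTime`, `N68a2faeb.P`, `N68a2faeb.NP`, `N793a5b8e.ManyOneReducible`,
`N793a5b8e.IsCompleteFor` (Mathlib `TM2ComputableInPolyTime` with the Prelude bit encodings).

* `Enc α` is the Prelude encoding class (instances: `Bool`, `ℕ` in binary, products, lists, `ℤ`,
  `ℚ`; here also `Unit`, `Option`, subtypes; `finEnc`, `piEnc`, `mkEnc` on demand),
  `enc a` is the code word and `size a` its length.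
* `PT f`: polynomial time. `pt_iff_isPolyTime : PT f ↔ IsPolyTime f`.
* `PB t`: the number `t x` is bounded by a polynomial in `size x`.
* `PP p`: the predicate `p` is decidable in polynomial time.
* `fun_prop` proves `PT`, `PB`, `PP` goals built from pairs, `if`, `decide`, Boolean and
  arithmetic operations on `ℕ`, list operations (`map`, `filter`, `flatMap`, `any`, `all`, `zip`,
  `range`, `replicate`, `take`, `drop`, `getD`, `[i]?`, `set`, `sum`, `idxOf`, `dedup`, ...),
  `Option.elim/map/bind/getD`, bounded quantifiers (`∀ y ∈ l`, `∃ y ∈ l`, `∀ y < n`, `∃ y < n`).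
  `List.range n`, `replicate n`, `x ^ n` need `PB n` as well (found by `fun_prop` when `n` is built
  from lengths and sizes). For a definition of your own prove a lemma
  `PT f → PT g → PT (fun x => foo (f x) (g x))` by `unfold foo; fun_prop` and tag it `fun_prop`.
* Loops need a size bound: `PT.foldl`, `PT.foldl_inv`, `PT.foldl_add`, `PT.foldl_add'`, the same
  for `foldr`, and `PT.iterate`. Constant-shape lists: `PT.mapConst`, `PT.flatMapConst`;
  finite case splits: `PT.of_finite`, `PT.finCases`, `PP.forall_fin`, `PP.exists_fin`.
* `langOf P` is the language of code words of instances with property `P`;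
  `langOf_mem_P`, `langOf_mem_NP` (typed verifier), `HardOn Pr Q` (hardness under a promise),
  `HardOn.of_red` (typed reduction), `HardOn.manyOne`, `HardOn.isComplete`.
* `hardOn_sat3`: Cook-Levin for 3-CNF formulas `List (Clause3 ℕ)` whose variables are below
  `3 * length`; `Cmp.exists_cnf`: the tableau formula with free input variables.
-/
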