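import Pool.Agent.Lib.Cx.Proc
import Pool.Prelude.Def_H_3587d628

/-!
`Cmp u v`: one procedure turns the word `u a` into the word `v a`, for every index `a`,
in time polynomial in the length of `u a`.
-/

namespace Pool.Agent.Lib.Cx

open Function N487b59b3

theorem eval_mono (p : Polynomial ℕ) {m n : ℕ} (h : m ≤ n) : p.eval m ≤ p.eval n := by
  induction p using Polynomial.induction_on' with
  | add p q hp hq => simp only [Polynomial.eval_add]; omega
  | monomial k a =>
    simp only [Polynomial.eval_monomial]
    exact Nat.mul_le_mul_left _ (Nat.pow_le_pow_left h _)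

/-- `t` is bounded by a polynomial in `s`. -/
def PolyB {α : Type} (s t : α → ℕ) : Prop := ∃ p : Polynomial ℕ, ∀ a, t a ≤ p.eval (s a)

namespace PolyB

variable {α β : Type} {s t r : α → ℕ}

theorem const (c : ℕ) : PolyB s (fun _ => c) := ⟨Polynomial.C c, fun _ => by simp⟩

theorem refl : PolyB s s := ⟨Polynomial.X, fun _ => by simp⟩

theorem add (h1 : PolyB s t) (h2 : PolyB s r) : PolyB s (fun a => t a + r a) := by
  obtain ⟨p, hp⟩ := h1
  obtain ⟨q, hq⟩ := h2
  exact ⟨p + q, fun a => by rw [Polynomial.eval_add]; exact Nat.add_le_add (hp a) (hq a)⟩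

theorem mul (h1 : PolyB s t) (h2 : PolyB s r) : PolyB s (fun a => t a * r a) := by
  obtain ⟨p, hp⟩ := h1
  obtain ⟨q, hq⟩ := h2
  exact ⟨p * q, fun a => by rw [Polynomial.eval_mul]; exact Nat.mul_le_mul (hp a) (hq a)⟩

theorem pow (h1 : PolyB s t) (k : ℕ) : PolyB s (fun a => t a ^ k) := by
  obtain ⟨p, hp⟩ := h1
  exact ⟨p ^ k, fun a => by rw [Polynomial.eval_pow]; exact Nat.pow_le_pow_left (hp a) _⟩

theorem mono (h1 : PolyB s t) (h : ∀ a, r a ≤ t a) : PolyB s r := by
  obtain ⟨p, hp⟩ := h1
  exact ⟨p, fun a => (h a).trans (hp a)⟩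

theorem of_le (h : ∀ a, r a ≤ s a) : PolyB s r := refl.mono h

theorem trans (h1 : PolyB s t) (h2 : PolyB t r) : PolyB s r := by
  obtain ⟨p, hp⟩ := h1
  obtain ⟨q, hq⟩ := h2
  exact ⟨q.comp p, fun a => by
    rw [Polynomial.eval_comp]; exact (hq a).trans (eval_mono q (hp a))⟩

theorem eval (h1 : PolyB s t) (q : Polynomial ℕ) : PolyB s (fun a => q.eval (t a)) :=
  h1.trans ⟨q, fun _ => le_rfl⟩

theorem reindex (h : PolyB s t) (g : β → α) : PolyB (fun b => s (g b)) (fun b => t (g b)) := by
  obtain ⟨p, hp⟩ := h
  exact ⟨p, fun b => hp _⟩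

end PolyB

def Cmp {α : Type} (u v : α → List Bool) : Prop :=
  ∃ (P : Proc Unit) (p : Polynomial ℕ),
    ∀ a, P.Runs (fun _ => u a) (fun _ => v a) (p.eval (u a).length)

namespace Cmp

open Proc

variable {α β : Type} {u v w : α → List Bool}

theorem intro (P : Proc Unit) (t : α → ℕ) (ht : PolyB (fun a => (u a).length) t)
    (h : ∀ a, P.Runs (fun _ => u a) (fun _ => v a) (t a)) : Cmp u v := by
  obtain ⟨p, hp⟩ := ht
  exact ⟨P, p, fun a => (h a).mono (hp a)⟩

theorem intro' {R : Type} [DecidableEq R] [Fintype R] (r : R) (P : Proc R) (t : α → ℕ)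
    (ht : PolyB (fun a => (u a).length) t)
    (h : ∀ a, P.Runs (single r (u a)) (single r (v a)) (t a)) : Cmp u v :=
  intro (P.hide r) t ht (fun a => (h a).hide)

theorem polyB (h : Cmp u v) : PolyB (fun a => (u a).length) (fun a => (v a).length) := by
  obtain ⟨P, p, hp⟩ := h
  exact (PolyB.refl.add (PolyB.refl.eval p)).mono (fun a => (hp a).length_le ())

theorem refl : Cmp u u := intro skip (fun _ => 0) (PolyB.const 0) (fun _ => runs_skip _)

theorem trans (h1 : Cmp u v) (h2 : Cmp v w) : Cmp u w := by
  have hb := h1.polyB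
  obtain ⟨P, p, hp⟩ := h1
  obtain ⟨Q, q, hq⟩ := h2
  exact intro (P.seq Q) _ ((PolyB.refl.eval p).add (hb.eval q)) (fun a => (hp a).seq (hq a))

theorem reindex (h : Cmp u v) (g : β → α) : Cmp (fun b => u (g b)) (fun b => v (g b)) := by
  obtain ⟨P, p, hp⟩ := h
  exact ⟨P, p, fun b => hp _⟩

theorem congr {u' v' : α → List Bool} (h : Cmp u v) (h1 : ∀ a, u' a = u a)
    (h2 : ∀ a, v' a = v a) : Cmp u' v' := by
  have e1 : u' = u := funext h1
  have e2 : v' = v := funext h2
  rw [e1, e2]; exact h

theorem appendConst (h : Cmp u v) (c : List Bool) : Cmp u (fun a => c ++ v a) := by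
  refine h.trans (intro (pushList () c) (fun _ => c.length) (PolyB.const _) fun a => ?_)
  exact (runs_pushList () c _).congr rfl (by funext r; simp) le_rfl

theorem cons (h : Cmp u v) (b : Bool) : Cmp u (fun a => b :: v a) := h.appendConst [b]

theorem const (c : List Bool) : Cmp u (fun _ => c) := by
  have h : Cmp u (fun _ => []) := by
    refine intro (clear ()) (fun a => (u a).length + 1) (PolyB.refl.add (PolyB.const _)) fun a => ?_
    exact (runs_clear () _).congr rfl (by funext r; simp) le_rfl
  simpa using h.appendConst c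

theorem case (h : ∀ o : Option Bool, Cmp (fun a : {a // (u a).head? = o} => (u a.1).tail)
    (fun a => v a.1)) : Cmp u v := by
  choose P p hp using h
  refine intro (Proc.case () P) (fun a => (p none).eval (u a).length +
    (p (some false)).eval (u a).length + (p (some true)).eval (u a).length + 1)
    ((((PolyB.refl.eval _).add (PolyB.refl.eval _)).add (PolyB.refl.eval _)).add (PolyB.const _))
    fun a => ?_
  apply Runs.case
  refine (hp (u a).head? ⟨a, rfl⟩).congr (by funext r; simp) rfl ?_
  have h1 : ∀ o, (p o).eval (u a).tail.length ≤ (p o).eval (u a).length :=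
    fun o => eval_mono _ (by simp)
  refine (h1 _).trans ?_
  rcases (u a).head? with _ | _ | _ <;> omega

theorem tail (h : Cmp u v) : Cmp u (fun a => (v a).tail) :=
  h.trans (case fun _ => refl)

theorem flatMap (h : Cmp u v) (g : Bool → List Bool) : Cmp u (fun a => (v a).flatMap g) := by
  refine h.trans (intro' (0 : Fin 2) ((move 0 1).seq (pour 1 0 g))
    (fun a => 2 * (v a).length + 1 + (((g false).length + (g true).length + 1) * (v a).length + 1))
    ((((PolyB.const _).mul PolyB.refl).add (PolyB.const _)).add
      (((PolyB.const _).mul PolyB.refl).add (PolyB.const _))) fun a => ?_)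
  refine ((runs_move (by decide) _).seq (runs_pour (by decide) g
    ((g false).length + (g true).length) (fun b => by cases b <;> omega) _)).congr rfl ?_ ?_
  · funext r; fin_cases r <;> simp [single]
  · simp [single]

theorem delimit_eq (x : List Bool) : delimit x = x.flatMap (fun b => [true, b]) ++ [false] := by
  induction x with
  | nil => rfl
  | cons b x ih => simp [delimit, ih]

theorem pair (h1 : Cmp u v) (h2 : Cmp u w) : Cmp u (fun a => delimit (v a) ++ w a) := by
  have hb := h1.polyB
  obtain ⟨P, p, hp⟩ := h1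
  obtain ⟨Q, q, hq⟩ := h2
  refine intro' (0 : Fin 3) ((move 0 2).seq ((move2 2 0 1).seq ((onReg 1 P).seq ((onReg 0 Q).seq
    ((move 1 2).seq ((push 0 false).seq (pour 2 0 (fun b => [true, b]))))))))
    (fun a => 5 * (u a).length + p.eval (u a).length + q.eval (u a).length +
      5 * (v a).length + 5)
    ((((((PolyB.const _).mul PolyB.refl).add (PolyB.refl.eval _)).add (PolyB.refl.eval _)).add
      ((PolyB.const _).mul hb)).add (PolyB.const _)) fun a => ?_
  refine ((runs_move (by decide) _).seq ((runs_move2 (by decide) (by decide) (by decide) _).seq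
    (((hp a).onReg 1 _ ?_).seq (((hq a).onReg 0 _ ?_).seq ((runs_move (by decide) _).seq
    ((runs_push _ _ _).seq (runs_pour (by decide) _ 2 (fun b => le_rfl) _))))))).congr rfl ?_ ?_
  · simp [single]
  · simp [single]
  · funext r; fin_cases r <;> simp [single, delimit_eq]
  · simp [single]; omega

/-- Split a delimited pair. -/
def undel : Proc (Fin 3) := loop 0 (fun b => match b with
  | true => Proc.case 0 (fun o => match o with
    | some c => push 1 c
    | none => skip)
  | false => move 0 2)

theorem runs_undel (x y z : List Bool) :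
    undel.Runs ![delimit x ++ y, z, []] ![[], x.reverse ++ z, y.reverse]
      (3 * x.length + 2 * y.length + 3) := by
  induction x generalizing z with
  | nil =>
    have h1 := runs_move (show (0 : Fin 3) ≠ 2 by decide)
      (update ![delimit [] ++ y, z, []] 0 y)
    refine (Runs.loop_cons (k := (0 : Fin 3)) (S := ![delimit [] ++ y, z, []]) (b := false)
      (r := y) rfl h1 (runs_loop_nil ?_)).congr rfl ?_ ?_
    · simp
    · funext r; fin_cases r <;> simp
    · simp
  | cons b x ih =>
    have h1 : (Proc.case (0 : Fin 3) (fun o => match o with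
      | some c => push 1 c
      | none => skip)).Runs (update ![delimit (b :: x) ++ y, z, []] 0 (b :: (delimit x ++ y)))
        ![delimit x ++ y, b :: z, []] (1 + 1) := by
      apply Runs.case
      simp only [update_self, List.head?_cons]
      refine (runs_push _ _ _).congr rfl ?_ le_rfl
      funext r; fin_cases r <;> simp
    refine (Runs.loop_cons (k := (0 : Fin 3)) (S := ![delimit (b :: x) ++ y, z, []])
      (b := true) (r := b :: (delimit x ++ y)) rfl h1 (ih _)).congr rfl ?_ ?_
    · simp
    · simp; omega

theorem fst : Cmp (fun p : List Bool × List Bool => delimit p.1 ++ p.2) (fun p => p.1) := by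
  refine intro' (0 : Fin 3) (undel.seq ((clear 2).seq (move 1 0)))
    (fun a => 5 * (delimit a.1 ++ a.2).length + 5)
    (((PolyB.const _).mul PolyB.refl).add (PolyB.const _)) fun a => ?_
  refine ((runs_undel a.1 a.2 []).seq ((runs_clear _ _).seq (runs_move (by decide) _))).congr
    ?_ ?_ ?_
  · funext r; fin_cases r <;> simp [single]
  · funext r; fin_cases r <;> simp [single]
  · simp; omega

theorem snd : Cmp (fun p : List Bool × List Bool => delimit p.1 ++ p.2) (fun p => p.2) := by
  refine intro' (0 : Fin 3) (undel.seq ((clear 1).seq (move 2 0)))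
    (fun a => 5 * (delimit a.1 ++ a.2).length + 5)
    (((PolyB.const _).mul PolyB.refl).add (PolyB.const _)) fun a => ?_
  refine ((runs_undel a.1 a.2 []).seq ((runs_clear _ _).seq (runs_move (by decide) _))).congr
    ?_ ?_ ?_
  · funext r; fin_cases r <;> simp [single]
  · funext r; fin_cases r <;> simp [single]
  · simp; omega

theorem runs_iter {e : β → List Bool} {f : β → β} {P : Proc Unit} {p : Polynomial ℕ}
    (hp : ∀ b, P.Runs (fun _ => e b) (fun _ => e (f b)) (p.eval (e b).length)) (M : ℕ)
    (c : List Bool) (b : β) (hM : ∀ i < c.length, (e (f^[i] b)).length ≤ M) :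
    (loop (1 : Fin 3) (fun _ => onReg 0 P)).Runs ![e b, c, []] ![e (f^[c.length] b), [], []]
      (c.length * (p.eval M + 1) + 1) := by
  induction c generalizing b with
  | nil => exact (runs_loop_nil rfl).congr rfl rfl (by simp)
  | cons x c ih =>
    have h1 := (hp b).onReg (0 : Fin 3) (update ![e b, x :: c, []] 1 c) (by simp)
    have h2 := ih (f b) (fun i hi => by
      have := hM (i + 1) (by simp; omega)
      rwa [Function.iterate_succ_apply] at this)
    have h3 : p.eval (e b).length ≤ p.eval M := eval_mono _ (hM 0 (by simp))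
    refine (Runs.loop_cons (k := (1 : Fin 3)) (S := ![e b, x :: c, []]) (b := x) (r := c) rfl h1
      (h2.congr ?_ rfl le_rfl)).congr rfl ?_ ?_
    · funext r; fin_cases r <;> simp
    · simp
    · simp only [List.length_cons]; nlinarith

/-- Bounded iteration. -/
theorem iter {e : β → List Bool} {f : β → β} {s : α → β} {c : α → List Bool}
    (hf : Cmp e (fun b => e (f b))) (hs : Cmp u (fun a => e (s a))) (hc : Cmp u c)
    (M : α → ℕ) (hM : PolyB (fun a => (u a).length) M)
    (hb : ∀ a, ∀ i < (c a).length, (e (f^[i] (s a))).length ≤ M a) :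
    Cmp u (fun a => e (f^[(c a).length] (s a))) := by
  have hcb := hc.polyB
  obtain ⟨P, p, hp⟩ := hf
  obtain ⟨Q, q, hq⟩ := hs
  obtain ⟨C, r, hr⟩ := hc
  refine intro' (0 : Fin 3) ((move 0 2).seq ((move2 2 0 1).seq ((onReg 1 C).seq ((onReg 0 Q).seq
    (loop 1 (fun _ => onReg 0 P))))))
    (fun a => 5 * (u a).length + r.eval (u a).length + q.eval (u a).length +
      (c a).length * (p.eval (M a) + 1) + 3)
    ((((((PolyB.const _).mul PolyB.refl).add (PolyB.refl.eval _)).add (PolyB.refl.eval _)).add
      (hcb.mul ((hM.eval p).add (PolyB.const _)))).add (PolyB.const _)) fun a => ?_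
  refine ((runs_move (by decide) _).seq ((runs_move2 (by decide) (by decide) (by decide) _).seq
    (((hr a).onReg 1 _ ?_).seq (((hq a).onReg 0 _ ?_).seq
    ((runs_iter hp (M a) (c a) (s a) (hb a)).congr ?_ rfl le_rfl))))).congr rfl ?_ ?_
  · simp [single]
  · simp [single]
  · funext r; fin_cases r <;> simp [single]
  · funext r; fin_cases r <;> simp [single]
  · simp [single]; omega

/-- A computation in the sense of `Cmp` is a polynomial-time computation of a `FinTM2`. -/
theorem toTM2 {γ : Type} {ea : α → List Bool} {eb : γ → List Bool} {f : α → γ}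
    (h : Cmp ea (fun a => eb (f a))) : Nonempty (Turing.TM2ComputableInPolyTime ea eb f) := by
  obtain ⟨P, p, hp⟩ := h
  have key : ∀ z : List Bool, ext0 P.L (fun _ : Unit => z) = single (Sum.inl ()) z := by
    intro z; funext k
    rcases k with k | k
    · simp
    · simp [single]
  refine ⟨{ tm := toTM P.B (Sum.inl ()) (Sum.inl ())
            inputAlphabet := Equiv.refl Bool
            outputAlphabet := Equiv.refl Bool
            time := p + 1
            outputsFun := fun a => ?_ }⟩
  have h1 := hp a
  unfold Proc.Runs at h1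
  rw [key, key] at h1
  have h2 := (toTM_outputs P.B (Sum.inl ()) (Sum.inl ()) _ _ _ h1).some
  have e1 : ∀ l : List Bool, List.map (Equiv.refl Bool).invFun l = l := fun l => List.map_id l
  rw [Polynomial.eval_add, Polynomial.eval_one]
  erw [e1, e1]
  exact h2

end Cmp

end Pool.Agent.Lib.Cx
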