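import Pool.Agent.Lib.Cx.Sim

/-!
The Cook-Levin tableau: a polynomial-time test on words of length `n` is expressed by a
3-CNF formula, computable from `n` in unary, whose first `n` variables are the input bits.
-/

namespace Pool.Agent.Lib.Cx

open Function N487b59b3

/-- A clause with three literals; the literal `(v, b)` holds when variable `v` has value `b`. -/
abbrev Clause3 (V : Type) : Type := (V × Bool) × (V × Bool) × (V × Bool)

/-- The clause is true under the assignment. -/
def Clause3.Holds {V : Type} (a : V → Bool) (c : Clause3 V) : Prop :=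
  a c.1.1 = c.1.2 ∨ a c.2.1.1 = c.2.1.2 ∨ a c.2.2.1 = c.2.2.2

/-- Satisfiability of a 3-CNF formula. -/
def Sat3 {V : Type} (φ : List (Clause3 V)) : Prop := ∃ a : V → Bool, ∀ c ∈ φ, c.Holds a

/-- Renaming the variables of a clause. -/
def Clause3.map {V W : Type} (r : V → W) (c : Clause3 V) : Clause3 W :=
  ((r c.1.1, c.1.2), (r c.2.1.1, c.2.1.2), (r c.2.2.1, c.2.2.2))

/-- The variables of a formula, with repetitions. -/
def vars3 {V : Type} (φ : List (Clause3 V)) : List V :=
  φ.flatMap (fun c => [c.1.1, c.2.1.1, c.2.2.1])

theorem length_vars3 {V : Type} (φ : List (Clause3 V)) : (vars3 φ).length = 3 * φ.length := by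
  induction φ with
  | nil => rfl
  | cons c φ ih =>
    simp only [vars3] at ih ⊢
    simp only [List.flatMap_cons, List.length_append, ih]
    simp
    omega

section tableau

variable {K Λ : Type} [DecidableEq K]

/-- The step function; halted configurations stay put. -/
def nxt (code : Λ → Instr K (Option Λ)) (c : Option Λ × St K) : Option Λ × St K :=
  c.1.elim c (fun l => (code l).exec c.2)

theorem Steps.nxt_iter {code : Λ → Instr K (Option Λ)} {a b : Option Λ × St K} {n : ℕ}
    (h : Steps code a n b) : (nxt code)^[n] a = b := by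
  induction h with
  | refl c => rfl
  | step l S k c _ ih => rw [Function.iterate_succ_apply]; exact ih

/-- The stack whose top decides the next label. -/
def rdStk (code : Λ → Instr K (Option Λ)) (k0 : K) : Option Λ → K
  | none => k0
  | some l => match code l with
    | Instr.push _ _ _ => k0
    | Instr.pop k _ => k

/-- The next label. -/
def nxtLab (code : Λ → Instr K (Option Λ)) : Option Λ → Option Bool → Option Λ
  | none, _ => none
  | some l, s => match code l with
    | Instr.push _ _ n => n
    | Instr.pop _ n => n s

/-- What happens to stack `k`: nothing, a pop, or a push. -/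
def mode (code : Λ → Instr K (Option Λ)) : Option Λ → K → Option (Option Bool)
  | none, _ => none
  | some l, k => match code l with
    | Instr.push j b _ => if k = j then some (some b) else none
    | Instr.pop j _ => if k = j then some none else none

def off1 : Option (Option Bool) → ℕ
  | some none => 1
  | _ => 0

def off2 : Option (Option Bool) → ℕ
  | some (some _) => 1
  | _ => 0

theorem nxt_lab (code : Λ → Instr K (Option Λ)) (k0 : K) (c : Option Λ × St K) :
    (nxt code c).1 = nxtLab code c.1 (c.2 (rdStk code k0 c.1))[0]? := by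
  obtain ⟨_ | l, S⟩ := c
  · rfl
  · simp only [nxt, Option.elim, nxtLab, rdStk]
    cases code l with
    | push j b n => rfl
    | pop j n => simp [Instr.exec, List.head?_eq_getElem?]

theorem nxt_cell (code : Λ → Instr K (Option Λ)) (c : Option Λ × St K) (k : K) (j : ℕ) :
    ((nxt code c).2 k)[j + off2 (mode code c.1 k)]? = (c.2 k)[j + off1 (mode code c.1 k)]? := by
  obtain ⟨_ | l, S⟩ := c
  · rfl
  · simp only [nxt, Option.elim, mode]
    cases code l with
    | push i b n =>
      by_cases h : k = i
      · subst h; simp [Instr.exec, off1, off2]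
      · simp [Instr.exec, off1, off2, h]
    | pop i n =>
      by_cases h : k = i
      · subst h; simp [Instr.exec, off1, off2]
      · simp [Instr.exec, off1, off2, h]

theorem nxt_top (code : Λ → Instr K (Option Λ)) (c : Option Λ × St K) (k : K) (b : Bool)
    (h : mode code c.1 k = some (some b)) : ((nxt code c).2 k)[0]? = some b := by
  obtain ⟨_ | l, S⟩ := c
  · cases h
  · simp only [nxt, Option.elim, mode] at h ⊢
    cases hc : code l with
    | push i b' n =>
      rw [hc] at h
      by_cases hk : k = i
      · subst hk
        simp only [if_true, Option.some.injEq] at h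
        simp [Instr.exec, h]
      · simp [hk] at h
    | pop i n =>
      rw [hc] at h
      by_cases hk : k = i <;> simp [hk] at h

/-- Variables of the tableau. -/
abbrev TVar (K Λ : Type) : Type := ℕ × ℕ × (Option Λ ⊕ K × Option Bool)

def vL (t : ℕ) (o : Option Λ) : TVar K Λ := (t, 0, Sum.inl o)

def vC (t : ℕ) (k : K) (j : ℕ) (s : Option Bool) : TVar K Λ := (t, j, Sum.inr (k, s))

variable [Fintype K] [Fintype Λ]

/-- The clauses for time `t` that do not depend on a position. -/
noncomputable def stepA (code : Λ → Instr K (Option Λ)) (k0 : K) (t : ℕ) :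
    List (Clause3 (TVar K Λ)) :=
  (Finset.univ : Finset (Option Λ × Option Bool)).toList.map (fun z =>
    ((vL t z.1, false), (vC t (rdStk code k0 z.1) 0 z.2, false),
      (vL (t + 1) (nxtLab code z.1 z.2), true))) ++
  (Finset.univ.filter (fun z : Option Λ × K × Bool =>
      mode code z.1 z.2.1 = some (some z.2.2))).toList.map (fun z =>
    ((vL t z.1, false), (vL t z.1, false), (vC (t + 1) z.2.1 0 (some z.2.2), true)))

/-- The clauses for time `t` and position `j`. -/
noncomputable def stepB (code : Λ → Instr K (Option Λ)) (t j : ℕ) :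
    List (Clause3 (TVar K Λ)) :=
  (Finset.univ : Finset (Option Λ × K × Option Bool)).toList.map (fun z =>
    ((vL t z.1, false), (vC t z.2.1 (j + off1 (mode code z.1 z.2.1)) z.2.2, false),
      (vC (t + 1) z.2.1 (j + off2 (mode code z.1 z.2.1)) z.2.2, true)))

/-- The clauses for time zero and position `j`. -/
noncomputable def initB (i : K) (n j : ℕ) : List (Clause3 (TVar K Λ)) :=
  (Finset.univ : Finset K).toList.map (fun k =>
    if k = i ∧ j < n then
      ((vC 0 k j (some true), true), (vC 0 k j (some false), true), (vC 0 k j (some false), true))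
    else ((vC 0 k j none, true), (vC 0 k j none, true), (vC 0 k j none, true)))

/-- The whole tableau formula. -/
noncomputable def tableau (code : Λ → Instr K (Option Λ)) (e : Option Λ) (i : K) (n T : ℕ) :
    List (Clause3 (TVar K Λ)) :=
  ((vL 0 e, true), (vL 0 e, true), (vL 0 e, true)) ::
  ((vC T i 0 (some false), false), (vC T i 0 (some false), false),
    (vC T i 0 (some false), false)) ::
  ((List.range (T + 1)).flatMap (fun j => initB i n j) ++
   (List.range T).flatMap (fun t => stepA code i t ++
      (List.range (T + 1)).flatMap (fun j => stepB code t j)))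

theorem tableau_sound (code : Λ → Instr K (Option Λ)) (e : Option Λ) (i : K) (x : List Bool)
    (T : ℕ) (a : TVar K Λ → Bool)
    (hx : ∀ j (h : j < x.length), a (vC 0 i j (some true)) = x[j])
    (ha : ∀ c ∈ tableau code e i x.length T, c.Holds a) :
    (((nxt code)^[T] (e, single i x)).2 i)[0]? ≠ some false := by
  simp only [tableau, List.mem_cons, List.mem_append, List.mem_flatMap, List.mem_range,
    forall_eq_or_imp] at ha
  obtain ⟨h1, h2, h3⟩ := ha
  have key : ∀ t ≤ T, a (vL t ((nxt code)^[t] (e, single i x)).1) = true ∧
      ∀ k j, j + t ≤ T → a (vC t k j (((nxt code)^[t] (e, single i x)).2 k)[j]?) = true := by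
    intro t
    induction t with
    | zero =>
      intro _
      refine ⟨by simpa [Clause3.Holds] using h1, fun k j hj => ?_⟩
      have := h3 _ (Or.inl ⟨j, by omega, List.mem_map_of_mem (a := k) (by simp)⟩)
      simp only [Function.iterate_zero, id]
      split_ifs at this with h
      · obtain ⟨rfl, hj⟩ := h
        have h4 := hx j hj
        simp only [single_self, List.getElem?_eq_getElem hj]
        cases hb : x[j]
        · rw [hb] at h4
          simpa [Clause3.Holds, h4] using this
        · rwa [hb] at h4
      · have h4 : (single i x k)[j]? = none := by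
          by_cases hk : k = i
          · subst hk
            simp only [true_and] at h
            simp [h]
          · simp [single_of_ne hk]
        rw [h4]
        simpa [Clause3.Holds] using this
    | succ t ih =>
      intro ht
      obtain ⟨i1, i2⟩ := ih (by omega)
      rw [Function.iterate_succ_apply']
      generalize (nxt code)^[t] (e, single i x) = c at i1 i2
      constructor
      · have := h3 _ (Or.inr ⟨t, by omega, Or.inl (List.mem_append_left _
          (List.mem_map_of_mem (a := (c.1, (c.2 (rdStk code i c.1))[0]?)) (by simp)))⟩)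
        have i3 := i2 (rdStk code i c.1) 0 (by omega)
        rw [nxt_lab code i]
        simpa [Clause3.Holds, i1, i3] using this
      · intro k j hj
        by_cases hj0 : off2 (mode code c.1 k) ≤ j
        · obtain ⟨j', rfl⟩ := Nat.exists_eq_add_of_le' hj0
          have := h3 _ (Or.inr ⟨t, by omega, Or.inr ⟨j', by omega,
            List.mem_map_of_mem (a := (c.1, k, (c.2 k)[j' + off1 (mode code c.1 k)]?))
              (by simp)⟩⟩)
          have i3 := i2 k (j' + off1 (mode code c.1 k)) (by
            have : off1 (mode code c.1 k) ≤ 1 := by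
              unfold off1; split <;> omega
            omega)
          rw [nxt_cell]
          simpa [Clause3.Holds, i1, i3] using this
        · obtain ⟨b, hb⟩ : ∃ b, mode code c.1 k = some (some b) := by
            rcases hm : mode code c.1 k with _ | _ | b
            · simp [hm, off2] at hj0
            · simp [hm, off2] at hj0
            · exact ⟨b, rfl⟩
          obtain rfl : j = 0 := by simp [hb, off2] at hj0; omega
          have := h3 _ (Or.inr ⟨t, by omega, Or.inl (List.mem_append_right _
            (List.mem_map_of_mem (a := (c.1, k, b)) (by simp [hb])))⟩)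
          rw [nxt_top code c k b hb]
          simpa [Clause3.Holds, i1] using this
  intro h
  have := (key T le_rfl).2 i 0 (by omega)
  rw [h] at this
  simp [Clause3.Holds, this] at h2

theorem tableau_complete (code : Λ → Instr K (Option Λ)) (e : Option Λ) (i : K) (x : List Bool)
    (T : ℕ) (h : (((nxt code)^[T] (e, single i x)).2 i)[0]? ≠ some false) :
    ∃ a : TVar K Λ → Bool, (∀ j (h : j < x.length), a (vC 0 i j (some true)) = x[j]) ∧
      ∀ c ∈ tableau code e i x.length T, c.Holds a := by
  classical
  let run : ℕ → Option Λ × St K := fun t => (nxt code)^[t] (e, single i x)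
  have hrun : ∀ t, run (t + 1) = nxt code (run t) := fun t => Function.iterate_succ_apply' _ _ _
  let a : TVar K Λ → Bool := fun v => match v.2.2 with
    | Sum.inl o => decide ((run v.1).1 = o)
    | Sum.inr z => decide (((run v.1).2 z.1)[v.2.1]? = z.2)
  have hL : ∀ t o, a (vL t o) = decide ((run t).1 = o) := fun _ _ => rfl
  have hC : ∀ t k j s, a (vC t k j s) = decide (((run t).2 k)[j]? = s) := fun _ _ _ _ => rfl
  have h0 : run 0 = (e, single i x) := rfl
  refine ⟨a, fun j hj => ?_, ?_⟩
  · rw [hC, h0]
    simp [List.getElem?_eq_getElem hj]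
  · simp only [tableau, List.mem_cons, List.mem_append, List.mem_flatMap, List.mem_range,
      forall_eq_or_imp]
    refine ⟨by simp [Clause3.Holds, hL, h0], by simpa [Clause3.Holds, hC] using h, ?_⟩
    rintro c (⟨j, hj, hc⟩ | ⟨t, ht, hc | ⟨j, hj, hc⟩⟩)
    · obtain ⟨k, -, rfl⟩ := List.mem_map.1 hc
      split_ifs with h
      · obtain ⟨rfl, hj⟩ := h
        simp [Clause3.Holds, hC, h0, List.getElem?_eq_getElem hj]
      · by_cases hk : k = i
        · subst hk
          simp only [true_and] at h
          simp [Clause3.Holds, hC, h0, h]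
        · simp [Clause3.Holds, hC, h0, single_of_ne hk]
    · rcases List.mem_append.1 hc with hc | hc
      · obtain ⟨⟨o, s⟩, -, rfl⟩ := List.mem_map.1 hc
        simp only [Clause3.Holds, hL, hC, decide_eq_false_iff_not, decide_eq_true_eq]
        by_cases h1 : (run t).1 = o
        · by_cases h2 : ((run t).2 (rdStk code i o))[0]? = s
          · right; right
            rw [hrun, nxt_lab code i, h1, h2]
          · tauto
        · tauto
      · obtain ⟨⟨o, k, b⟩, hz, rfl⟩ := List.mem_map.1 hc
        simp only [Clause3.Holds, hL, hC, decide_eq_false_iff_not, decide_eq_true_eq]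
        by_cases h1 : (run t).1 = o
        · right; right
          rw [hrun, nxt_top code _ k b (by rw [h1]; simpa using hz)]
        · tauto
    · obtain ⟨⟨o, k, s⟩, -, rfl⟩ := List.mem_map.1 hc
      simp only [Clause3.Holds, hL, hC, decide_eq_false_iff_not, decide_eq_true_eq]
      by_cases h1 : (run t).1 = o
      · by_cases h2 : ((run t).2 k)[j + off1 (mode code o k)]? = s
        · right; right
          rw [hrun, ← h1, nxt_cell, h1, h2]
        · tauto
      · tauto

variable {α : Type} [Enc α] [Enc (Option Λ ⊕ K × Option Bool)]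

omit [DecidableEq K] [Fintype K] [Fintype Λ] in
@[fun_prop] theorem vL_pt {t : α → ℕ} (ht : PT t) (o : Option Λ) :
    PT (fun x => (vL (t x) o : TVar K Λ)) := by
  unfold vL; fun_prop

omit [DecidableEq K] [Fintype K] [Fintype Λ] in
@[fun_prop] theorem vC_pt {t j : α → ℕ} (ht : PT t) (hj : PT j) (k : K) (s : Option Bool) :
    PT (fun x => (vC (t x) k (j x) s : TVar K Λ)) := by
  unfold vC; fun_prop

theorem tableau_pt (code : Λ → Instr K (Option Λ)) (e : Option Λ) (i : K) {n T : α → ℕ}
    (hn : PT n) (hT : PT T) (hb : PB T) : PT (fun x => tableau code e i (n x) (T x)) := by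
  have hA : PT (fun t : ℕ => stepA code i t) :=
    PT.append (PT.mapConst _ fun z _ => by fun_prop) (PT.mapConst _ fun z _ => by fun_prop)
  have hB : PT (fun z : ℕ × ℕ => stepB code z.1 z.2) := PT.mapConst _ fun z _ => by fun_prop
  have hI : PT (fun z : ℕ × ℕ => (initB i z.1 z.2 : List (Clause3 (TVar K Λ)))) :=
    PT.mapConst _ fun z _ => by fun_prop
  refine PT.cons (by fun_prop) (PT.cons (by fun_prop) (PT.append ?_ ?_))
  · exact PT.flatMap (hI.comp' (f := fun p : α × ℕ => (n p.1, p.2)) (by fun_prop)) (by fun_prop)
  · refine PT.flatMap (PT.append (hA.comp' (by fun_prop)) (PT.flatMap ?_ ?_)) (by fun_prop)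
    · exact hB.comp' (f := fun p : (α × ℕ) × ℕ => (p.1.2, p.2)) (by fun_prop)
    · exact PT.range (by fun_prop) ((hb.comp (by fun_prop)).add (PB.const 1))

end tableau

section rename

variable {V : Type} [DecidableEq V]

/-- Rename the variables by their first position in `pre ++ vars3 φ`. -/
def rename3 (pre : List V) (φ : List (Clause3 V)) : List (Clause3 ℕ) :=
  φ.map (Clause3.map (fun v => (pre ++ vars3 φ).idxOf v))

theorem rename3_vars (pre : List V) (φ : List (Clause3 V)) :
    ∀ v ∈ vars3 (rename3 pre φ), v < pre.length + 3 * φ.length := by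
  intro v hv
  rw [← length_vars3, ← List.length_append]
  simp only [vars3, rename3, List.mem_flatMap, List.mem_map] at hv
  obtain ⟨_, ⟨c, hc, rfl⟩, hv⟩ := hv
  simp only [Clause3.map, List.mem_cons, List.not_mem_nil, or_false] at hv
  rcases hv with rfl | rfl | rfl <;>
    exact List.idxOf_lt_length_of_mem (List.mem_append_right _
      (List.mem_flatMap.2 ⟨c, hc, by simp⟩))

theorem rename3_spec (pre : List V) (hp : pre.Nodup) (φ : List (Clause3 V))
    (x : ∀ j, j < pre.length → Bool) :
    (∃ a : V → Bool, (∀ j (h : j < pre.length), a pre[j] = x j h) ∧ ∀ c ∈ φ, c.Holds a) ↔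
    (∃ a : ℕ → Bool, (∀ j (h : j < pre.length), a j = x j h) ∧
      ∀ c ∈ rename3 pre φ, c.Holds a) := by
  constructor
  · rintro ⟨a, h1, h2⟩
    refine ⟨fun n => ((pre ++ vars3 φ)[n]?.map a).getD false, fun j hj => ?_, ?_⟩
    · simp [List.getElem?_append_left hj, List.getElem?_eq_getElem hj, h1]
    · intro c hc
      obtain ⟨c, hc', rfl⟩ := List.mem_map.1 hc
      have key : ∀ v ∈ [c.1.1, c.2.1.1, c.2.2.1],
          ((pre ++ vars3 φ)[(pre ++ vars3 φ).idxOf v]?.map a).getD false = a v := by
        intro v hv
        have hv' : v ∈ vars3 φ := List.mem_flatMap.2 ⟨c, hc', hv⟩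
        rw [List.getElem?_idxOf (List.mem_append_right _ hv')]
        rfl
      simp only [Clause3.Holds, Clause3.map]
      rw [key _ (by simp), key _ (by simp), key _ (by simp)]
      exact h2 c hc'
  · rintro ⟨a, h1, h2⟩
    refine ⟨fun v => a ((pre ++ vars3 φ).idxOf v), fun j hj => ?_, fun c hc => ?_⟩
    · simp only
      rw [List.idxOf_append_of_mem (List.getElem_mem hj), List.Nodup.idxOf_getElem hp, h1]
    · exact h2 _ (List.mem_map_of_mem hc)

variable {α : Type} [Enc α] [Enc V]

omit [DecidableEq V] in
@[fun_prop] theorem vars3_pt {φ : α → List (Clause3 V)} (h : PT φ) :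
    PT (fun x => vars3 (φ x)) := by
  unfold vars3; fun_prop

@[fun_prop] theorem rename3_pt {pre : α → List V} {φ : α → List (Clause3 V)} (hp : PT pre)
    (h : PT φ) : PT (fun x => rename3 (pre x) (φ x)) := by
  unfold rename3 Clause3.map; fun_prop

end rename

/-- Cook-Levin with free input variables. -/
theorem Cmp.exists_cnf {α : Type} {u : α → List Bool} {R : α → Bool}
    (h : Cmp u (fun a => [R a])) :
    ∃ Φ : List Unit → List (Clause3 ℕ), PT Φ ∧
      (∀ l, ∀ v ∈ vars3 (Φ l), v < l.length + 3 * (Φ l).length) ∧
      ∀ a l, l.length = (u a).length → (R a = true ↔ ∃ s : ℕ → Bool,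
        (∀ j (h : j < (u a).length), s j = (u a)[j]) ∧ ∀ c ∈ Φ l, c.Holds s) := by
  classical
  obtain ⟨P, p, hp⟩ := h
  let _ : Enc (Option P.B.Λ ⊕ (Unit ⊕ P.L) × Option Bool) := finEnc _
  let pre : ℕ → List (TVar (Unit ⊕ P.L) P.B.Λ) := fun n =>
    (List.range n).map (fun j => vC 0 (Sum.inl ()) j (some true))
  refine ⟨fun l => rename3 (pre l.length)
    (tableau P.B.code P.B.entry (Sum.inl ()) l.length (p.eval l.length)), ?_, ?_, ?_⟩
  · refine rename3_pt (by simp only [pre]; fun_prop) ?_
    exact tableau_pt _ _ _ (by fun_prop) (by fun_prop) (by fun_prop)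
  · intro l v hv
    simpa [pre, rename3] using rename3_vars _ _ v hv
  · intro a l hl
    have hlen : (pre l.length).length = (u a).length := by simp [pre, hl]
    have hnd : (pre l.length).Nodup :=
      List.nodup_range.map (fun i j hij => by simpa [vC] using hij)
    have h1 := rename3_spec (pre l.length) hnd
      (tableau P.B.code P.B.entry (Sum.inl ()) l.length (p.eval l.length))
      (fun j h => (u a)[j]'(hlen ▸ h))
    have h2 : (((nxt P.B.code)^[p.eval (u a).length]
        (P.B.entry, single (Sum.inl ()) (u a))).2 (Sum.inl ()))[0]? = some (R a) := by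
      obtain ⟨n, hn, hs⟩ := hp a
      have key : ∀ z : List Bool, ext0 P.L (fun _ : Unit => z) = single (Sum.inl ()) z := by
        intro z; funext k
        rcases k with k | k
        · simp
        · simp [single]
      rw [key, key] at hs
      obtain ⟨d, hd⟩ := Nat.exists_eq_add_of_le hn
      rw [hd, add_comm, Function.iterate_add_apply, hs.nxt_iter, Function.iterate_fixed rfl]
      simp
    constructor
    · intro hR
      obtain ⟨s, s1, s2⟩ := tableau_complete P.B.code P.B.entry (Sum.inl ()) (u a)
        (p.eval (u a).length) (by rw [h2, hR]; simp)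
      obtain ⟨s', t1, t2⟩ := h1.1 ⟨s, fun j hj => by simpa [pre] using s1 j (hlen ▸ hj),
        by rw [hl]; exact s2⟩
      exact ⟨s', fun j hj => t1 j (hlen ▸ hj), t2⟩
    · rintro ⟨s, s1, s2⟩
      obtain ⟨s', t1, t2⟩ := h1.2 ⟨s, fun j hj => s1 j (hlen ▸ hj), s2⟩
      have := tableau_sound P.B.code P.B.entry (Sum.inl ()) (u a) (p.eval (u a).length) s'
        (fun j hj => by simpa [pre] using t1 j (hlen ▸ hj)) (by rw [← hl]; exact t2)
      rw [h2] at this
      simpa using this

end Pool.Agent.Lib.Cx
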