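import Pool.Agent.Lib.Cx.PT

/-!
Folds and the list operations derived from them.
-/

namespace Pool.Agent.Lib.Cx

open Function N487b59b3

variable {α β γ δ : Type} [Enc α] [Enc β] [Enc γ] [Enc δ]

namespace PT

/-- One step of a fold, on the state (context, rest of the list, accumulator). -/
def foldStep (f : α → γ → β → γ) (s : α × List β × γ) : α × List β × γ :=
  List.casesOn (motive := fun _ => α × List β × γ) s.2.1 s
    (fun a t => (s.1, t, f s.1 s.2.2 a))

omit [Enc α] [Enc β] [Enc γ] in
theorem foldStep_iter (f : α → γ → β → γ) (x : α) (l : List β) (c : γ) (i : ℕ) :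
    (foldStep f)^[i] (x, l, c) = (x, l.drop i, (l.take i).foldl (f x) c) := by
  induction i generalizing l c with
  | zero => simp
  | succ i ih =>
    rw [Function.iterate_succ_apply]
    cases l with
    | nil =>
      have := ih [] c
      simpa [foldStep] using this
    | cons a t =>
      have := ih t (f x c a)
      simpa [foldStep] using this

/-- Left fold, with a polynomial bound on all intermediate accumulators. -/
theorem foldl {f : α → γ → β → γ} {l : α → List β} {c : α → γ}
    (hf : PT (fun p : α × γ × β => f p.1 p.2.1 p.2.2)) (hl : PT l) (hc : PT c)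
    (M : α → ℕ) (hM : PB M) (hb : ∀ x i, size (((l x).take i).foldl (f x) (c x)) ≤ M x) :
    PT (fun x => (l x).foldl (f x) (c x)) := by
  have h1 : PT (foldStep f) := by
    refine listCases (l := fun s : α × List β × γ => s.2.1) (g := fun s => s)
      (h := fun s a t => (s.1, t, f s.1 s.2.2 a)) (by fun_prop) id' ?_
    refine prodMk (by fun_prop) (prodMk (by fun_prop) ?_)
    exact hf.comp' (f := fun p : (α × List β × γ) × β × List β => (p.1.1, p.1.2.2, p.2.1))
      (by fun_prop)
  have h2 : PT (fun x => (x, l x, c x)) := by fun_prop
  have h3 := Cmp.iter (e := enc) h1 h2 hl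
    (fun x => 2 * size x + 1 + (2 * size (l x) + 1 + M x))
    (show PB _ by fun_prop) (fun x i _ => by
      rw [foldStep_iter]
      have e1 := hb x i
      have e2 := size_sublist (List.drop_sublist i (l x))
      change size _ ≤ _
      simp only [size_prod]
      omega)
  have h4 : PT (fun x => (foldStep f)^[(enc (l x)).length] (x, l x, c x)) := h3
  refine h4.snd.snd.of_eq fun x => ?_
  rw [foldStep_iter, List.take_of_length_le (i := (enc (l x)).length) (length_le_size _)]

/-- Left fold, with an invariant that bounds the accumulator. -/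
theorem foldl_inv {f : α → γ → β → γ} {l : α → List β} {c : α → γ}
    (hf : PT (fun p : α × γ × β => f p.1 p.2.1 p.2.2)) (hl : PT l) (hc : PT c)
    (I : α → γ → Prop) (h0 : ∀ x, I x (c x))
    (hs : ∀ x b, ∀ a ∈ l x, I x b → I x (f x b a))
    (M : α → ℕ) (hM : PB M) (hb : ∀ x b, I x b → size b ≤ M x) :
    PT (fun x => (l x).foldl (f x) (c x)) := by
  refine foldl hf hl hc M hM fun x i => hb x _ ?_
  have : ∀ (m : List β) (b : γ), (∀ a ∈ m, a ∈ l x) → I x b → I x (m.foldl (f x) b) := by
    intro m
    induction m with
    | nil => intro b _ hb; exact hb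
    | cons a m ih =>
      intro b hm hb
      exact ih _ (fun a' ha' => hm a' (by simp [ha'])) (hs x b a (hm a (by simp)) hb)
  exact this _ _ (fun a ha => List.mem_of_mem_take ha) (h0 x)

/-- Left fold whose accumulator grows by a polynomial amount in each step. -/
theorem foldl_add {f : α → γ → β → γ} {l : α → List β} {c : α → γ}
    (hf : PT (fun p : α × γ × β => f p.1 p.2.1 p.2.2)) (hl : PT l) (hc : PT c)
    (M : α → ℕ) (hM : PB M) (hb : ∀ x b, ∀ a ∈ l x, size (f x b a) ≤ size b + M x) :
    PT (fun x => (l x).foldl (f x) (c x)) := by
  refine foldl hf hl hc (fun x => size (c x) + (l x).length * M x) (by fun_prop) fun x i => ?_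
  have : ∀ (m : List β) (b : γ), (∀ a ∈ m, a ∈ l x) →
      size (m.foldl (f x) b) ≤ size b + m.length * M x := by
    intro m
    induction m with
    | nil => intro b _; simp
    | cons a m ih =>
      intro b hm
      have e1 := ih (f x b a) (fun a' ha' => hm a' (by simp [ha']))
      have e2 := hb x b a (hm a (by simp))
      simp only [List.foldl_cons, List.length_cons]
      nlinarith
  refine (this _ _ (fun a ha => List.mem_of_mem_take ha)).trans ?_
  have : ((l x).take i).length ≤ (l x).length := by simp
  nlinarith

/-- The same, with the growth bounded by a polynomial in the context and the list element. -/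
theorem foldl_add' {f : α → γ → β → γ} {l : α → List β} {c : α → γ}
    (hf : PT (fun p : α × γ × β => f p.1 p.2.1 p.2.2)) (hl : PT l) (hc : PT c)
    (M : α × β → ℕ) (hM : PB M) (hb : ∀ x b a, size (f x b a) ≤ size b + M (x, a)) :
    PT (fun x => (l x).foldl (f x) (c x)) := by
  obtain ⟨N, hN, h⟩ := hM.uniform (PB.size' hl)
  exact foldl_add hf hl hc N hN fun x b a ha =>
    (hb x b a).trans (Nat.add_le_add_left (h x a (size_le_of_mem ha)) _)

@[fun_prop] theorem reverseAux {l m : α → List β} (hl : PT l) (hm : PT m) :
    PT (fun x => List.reverseAux (l x) (m x)) := by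
  refine (foldl_add' (f := fun _ acc a => a :: acc) (by fun_prop) hl hm
    (fun p => 2 * size p.2 + 1) (by fun_prop) (fun x b a => by simp; omega)).of_eq fun x => ?_
  simp [List.reverseAux_eq]

@[fun_prop] theorem reverse {l : α → List β} (hl : PT l) : PT (fun x => (l x).reverse) :=
  (reverseAux hl (const [])).of_eq (fun x => by simp [List.reverseAux_eq])

@[fun_prop] theorem append {l m : α → List β} (hl : PT l) (hm : PT m) :
    PT (fun x => l x ++ m x) :=
  (reverseAux hl.reverse hm).of_eq (fun x => by simp [List.reverseAux_eq])

theorem foldr {f : α → β → γ → γ} {l : α → List β} {c : α → γ}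
    (hf : PT (fun p : α × β × γ => f p.1 p.2.1 p.2.2)) (hl : PT l) (hc : PT c)
    (M : α → ℕ) (hM : PB M) (hb : ∀ x i, size (((l x).drop i).foldr (f x) (c x)) ≤ M x) :
    PT (fun x => (l x).foldr (f x) (c x)) := by
  refine (foldl (f := fun x b a => f x a b)
    (hf.comp' (f := fun p : α × γ × β => (p.1, p.2.2, p.2.1)) (by fun_prop)) hl.reverse hc M hM
    fun x i => ?_).of_eq fun x => by simp [List.foldl_reverse]
  rw [List.take_reverse, List.foldl_reverse]
  exact hb x _

theorem foldr_inv {f : α → β → γ → γ} {l : α → List β} {c : α → γ}
    (hf : PT (fun p : α × β × γ => f p.1 p.2.1 p.2.2)) (hl : PT l) (hc : PT c)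
    (I : α → γ → Prop) (h0 : ∀ x, I x (c x))
    (hs : ∀ x b, ∀ a ∈ l x, I x b → I x (f x a b))
    (M : α → ℕ) (hM : PB M) (hb : ∀ x b, I x b → size b ≤ M x) :
    PT (fun x => (l x).foldr (f x) (c x)) :=
  (foldl_inv (f := fun x b a => f x a b)
    (hf.comp' (f := fun p : α × γ × β => (p.1, p.2.2, p.2.1)) (by fun_prop)) hl.reverse hc I h0
    (fun x b a ha => hs x b a (by simpa using ha)) M hM hb).of_eq
    fun x => by simp [List.foldl_reverse]

theorem foldr_add {f : α → β → γ → γ} {l : α → List β} {c : α → γ}
    (hf : PT (fun p : α × β × γ => f p.1 p.2.1 p.2.2)) (hl : PT l) (hc : PT c)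
    (M : α → ℕ) (hM : PB M) (hb : ∀ x b, ∀ a ∈ l x, size (f x a b) ≤ size b + M x) :
    PT (fun x => (l x).foldr (f x) (c x)) :=
  (foldl_add (f := fun x b a => f x a b)
    (hf.comp' (f := fun p : α × γ × β => (p.1, p.2.2, p.2.1)) (by fun_prop)) hl.reverse hc M hM
    (fun x b a ha => hb x b a (by simpa using ha))).of_eq fun x => by simp [List.foldl_reverse]

theorem foldr_add' {f : α → β → γ → γ} {l : α → List β} {c : α → γ}
    (hf : PT (fun p : α × β × γ => f p.1 p.2.1 p.2.2)) (hl : PT l) (hc : PT c)
    (M : α × β → ℕ) (hM : PB M) (hb : ∀ x a b, size (f x a b) ≤ size b + M (x, a)) :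
    PT (fun x => (l x).foldr (f x) (c x)) := by
  obtain ⟨N, hN, h⟩ := hM.uniform (PB.size' hl)
  exact foldr_add hf hl hc N hN fun x b a ha =>
    (hb x a b).trans (Nat.add_le_add_left (h x a (size_le_of_mem ha)) _)

@[fun_prop] theorem flatMap {f : α → β → List γ} {l : α → List β}
    (hf : PT (fun p : α × β => f p.1 p.2)) (hl : PT l) : PT (fun x => (l x).flatMap (f x)) := by
  refine (foldr_add' (f := fun x a acc => f x a ++ acc) ?_ hl (const [])
    (fun p => size (f p.1 p.2)) (PB.size' hf) (fun x a b => by simp; omega)).of_eq fun x => ?_
  · exact append (hf.comp' (f := fun p : α × β × List γ => (p.1, p.2.1)) (by fun_prop))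
      (by fun_prop)
  · induction l x with
    | nil => rfl
    | cons a t ih => simp [ih]

@[fun_prop] theorem map {f : α → β → γ} {l : α → List β}
    (hf : PT (fun p : α × β => f p.1 p.2)) (hl : PT l) : PT (fun x => (l x).map (f x)) :=
  (flatMap (f := fun x a => [f x a]) (cons hf (const [])) hl).of_eq fun x => by
    induction l x with
    | nil => rfl
    | cons a t ih => simp [ih]

@[fun_prop] theorem flatten {l : α → List (List β)} (hl : PT l) : PT (fun x => (l x).flatten) :=
  (flatMap (f := fun _ a => a) (by fun_prop) hl).of_eq fun x => by simp [List.flatMap_id']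

@[fun_prop] theorem filterMap {f : α → β → Option γ} {l : α → List β}
    (hf : PT (fun p : α × β => f p.1 p.2)) (hl : PT l) : PT (fun x => (l x).filterMap (f x)) :=
  (flatMap (f := fun x a => (f x a).toList) hf.toList hl).of_eq fun x => by
    induction l x with
    | nil => rfl
    | cons a t ih => cases h : f x a <;> simp [h, ih]

@[fun_prop] theorem filter {f : α → β → Bool} {l : α → List β}
    (hf : PT (fun p : α × β => f p.1 p.2)) (hl : PT l) : PT (fun x => (l x).filter (f x)) :=
  (flatMap (f := fun x a => bif f x a then [a] else []) (by fun_prop) hl).of_eq fun x => by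
    induction l x with
    | nil => rfl
    | cons a t ih => cases h : f x a <;> simp [h, ih]

@[fun_prop] theorem any {f : α → β → Bool} {l : α → List β}
    (hf : PT (fun p : α × β => f p.1 p.2)) (hl : PT l) : PT (fun x => (l x).any (f x)) :=
  (filter hf hl).isEmpty.not.of_eq fun x => by
    induction l x with
    | nil => rfl
    | cons a t ih => cases h : f x a <;> simp [h, ih]

@[fun_prop] theorem all {f : α → β → Bool} {l : α → List β}
    (hf : PT (fun p : α × β => f p.1 p.2)) (hl : PT l) : PT (fun x => (l x).all (f x)) :=
  (any (f := fun x a => !f x a) hf.not hl).not.of_eq fun x => by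
    induction l x with
    | nil => rfl
    | cons a t ih => cases h : f x a <;> simp [h, ih]

@[fun_prop] theorem find? {f : α → β → Bool} {l : α → List β}
    (hf : PT (fun p : α × β => f p.1 p.2)) (hl : PT l) : PT (fun x => (l x).find? (f x)) :=
  (filter hf hl).head?.of_eq fun x => by simp

@[fun_prop] theorem zip {l : α → List β} {m : α → List γ} (hl : PT l) (hm : PT m) :
    PT (fun x => (l x).zip (m x)) := by
  have key : ∀ (l : List β) (m : List γ) (acc : List (β × γ)),
      (l.foldl (fun (s : List γ × List (β × γ)) a =>
        (s.1.tail, s.1.head?.elim s.2 (fun b => (a, b) :: s.2))) (m, acc)).2 =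
        (l.zip m).reverse ++ acc := by
    intro l
    induction l with
    | nil => intro m acc; simp
    | cons a l ih => intro m acc; cases m <;> simp [ih]
  refine (foldl_add' (f := fun _ (s : List γ × List (β × γ)) a =>
        (s.1.tail, s.1.head?.elim s.2 (fun b => (a, b) :: s.2))) (c := fun x => (m x, []))
        (by fun_prop) hl (by fun_prop) (fun p => 4 * size p.2 + 3) (by fun_prop)
        ?_).snd.reverse.of_eq fun x => by simp [key]
  rintro x ⟨s1, s2⟩ a
  cases s1
  · simp
  · simp; omega

@[fun_prop] theorem zipWith {f : α → β → γ → δ} {l : α → List β} {m : α → List γ}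
    (hf : PT (fun p : α × β × γ => f p.1 p.2.1 p.2.2)) (hl : PT l) (hm : PT m) :
    PT (fun x => List.zipWith (f x) (l x) (m x)) :=
  (map (f := fun x (p : β × γ) => f x p.1 p.2) hf (zip hl hm)).of_eq fun x => by
    rw [List.map_zip_eq_zipWith]; rfl

@[fun_prop] theorem product {l : α → List β} {m : α → List γ} (hl : PT l) (hm : PT m) :
    PT (fun x => (l x).product (m x)) := by
  unfold List.product
  fun_prop

@[fun_prop] theorem sprod {l : α → List β} {m : α → List γ} (hl : PT l) (hm : PT m) :
    PT (fun x => l x ×ˢ m x) := product hl hm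

@[fun_prop] theorem takeWhile {f : α → β → Bool} {l : α → List β}
    (hf : PT (fun p : α × β => f p.1 p.2)) (hl : PT l) : PT (fun x => (l x).takeWhile (f x)) := by
  refine (foldr_add' (f := fun x a acc => bif f x a then a :: acc else []) ?_ hl (const [])
    (fun p => 2 * size p.2 + 1) (by fun_prop)
    (fun x a b => by cases f x a <;> simp; omega)).of_eq fun x => ?_
  · exact cond (hf.comp' (f := fun p : α × β × List β => (p.1, p.2.1)) (by fun_prop))
      (by fun_prop) (by fun_prop)
  · induction l x with
    | nil => rfl
    | cons a t ih => cases h : f x a <;> simp [h, ih]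

/-- Drop as many elements as a given list has. -/
theorem drop_length {l : α → List β} {m : α → List γ} (hl : PT l) (hm : PT m) :
    PT (fun x => (l x).drop (m x).length) := by
  refine (foldl_add (f := fun _ (s : List β) _ => s.tail) (by fun_prop) hm hl (fun _ => 0)
    (by fun_prop) (fun x b a _ => by simpa using size_tail_le b)).of_eq fun x => ?_
  generalize l x = s
  induction m x generalizing s with
  | nil => rfl
  | cons a t ih => simp [← ih]

theorem take_length {l : α → List β} {m : α → List γ} (hl : PT l) (hm : PT m) :
    PT (fun x => (l x).take (m x).length) := by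
  refine (map (f := fun _ (p : β × γ) => p.1) (by fun_prop) (zip hl hm)).of_eq fun x => ?_
  generalize l x = s
  induction m x generalizing s with
  | nil => simp
  | cons a t ih => cases s <;> simp [ih]

@[fun_prop] theorem dropWhile {f : α → β → Bool} {l : α → List β}
    (hf : PT (fun p : α × β => f p.1 p.2)) (hl : PT l) : PT (fun x => (l x).dropWhile (f x)) :=
  (drop_length hl (takeWhile hf hl)).of_eq fun x => by
    induction l x with
    | nil => rfl
    | cons a t ih => cases h : f x a <;> simp [h, ih]

@[fun_prop] theorem getLast? {l : α → List β} (hl : PT l) : PT (fun x => (l x).getLast?) :=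
  hl.reverse.head?.of_eq fun x => by simp

@[fun_prop] theorem dropLast {l : α → List β} (hl : PT l) : PT (fun x => (l x).dropLast) :=
  hl.reverse.tail.reverse.of_eq fun x => by simp

@[fun_prop] theorem concat {l : α → List β} {a : α → β} (hl : PT l) (ha : PT a) :
    PT (fun x => (l x).concat (a x)) :=
  (append hl (cons ha (const []))).of_eq fun x => by simp

/-- Words with the identity encoding. -/
structure Raw where
  val : List Bool

noncomputable instance : Enc Raw :=
  mkEnc Raw.val (fun a b h => by cases a; cases b; simpa using h)

theorem rawCons : PT (fun p : Bool × Raw => Raw.mk (p.1 :: p.2.val)) := by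
  refine split (c := fun p : Bool × Raw => p.1) (by fun_prop) fun b => ?_
  have h : PT (fun x : {x : Bool × Raw // x.1 = b} => x.1.2) := by fun_prop
  exact (Cmp.cons h b).congr (fun _ => rfl) (fun x => by
    change x.1.1 :: x.1.2.val = b :: x.1.2.val
    rw [x.2])

theorem toRaw : PT Raw.mk := by
  refine (foldr_add (f := fun _ a (r : Raw) => Raw.mk (a :: r.val)) (l := fun l : List Bool => l)
    (rawCons.comp' (f := fun p : List Bool × Bool × Raw => p.2) (by fun_prop)) id'
    (const (Raw.mk [])) (fun _ => 1) (by fun_prop) (fun x b a _ => le_rfl)).of_eq fun x => ?_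
  induction x with
  | nil => rfl
  | cons a t ih => simp [← ih]

/-- To compute a value it is enough to compute its code word. -/
theorem of_enc {f : α → β} (h : PT (fun x => enc (f x))) : PT f := toRaw.comp' h

theorem beqList {l m : α → List Bool} (hl : PT l) (hm : PT m) :
    PT (fun x => decide (l x = m x)) := by
  refine (and (all (f := fun _ (p : Bool × Bool) => !(Bool.xor p.1 p.2)) (by fun_prop) (zip hl hm))
    (and (drop_length hl hm).isEmpty (drop_length hm hl).isEmpty)).of_eq fun x => ?_
  generalize m x = s
  induction l x generalizing s with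
  | nil => cases s <;> simp
  | cons a t ih =>
    cases s with
    | nil => simp
    | cons b s =>
      have := ih s
      cases a <;> cases b <;> simp_all

/-- Equality test. -/
theorem decideEq {f g : α → β} (hf : PT f) (hg : PT g) [∀ x, Decidable (f x = g x)] :
    PT (fun x => decide (f x = g x)) :=
  (beqList hf.enc' hg.enc').of_eq fun x => by simp [enc_injective.eq_iff]

@[fun_prop] theorem beq [BEq β] [LawfulBEq β] {f g : α → β} (hf : PT f) (hg : PT g) :
    PT (fun x => f x == g x) := by
  classical
  exact (decideEq hf hg).of_eq fun x => by by_cases h : f x = g x <;> simp [h]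

@[fun_prop] theorem bne [BEq β] [LawfulBEq β] {f g : α → β} (hf : PT f) (hg : PT g) :
    PT (fun x => f x != g x) := (beq hf hg).not

/-- Every function on a finite type is polynomial-time computable. -/
theorem of_finite [Finite α] (f : α → β) : PT f := by
  classical
  cases isEmpty_or_nonempty α with
  | inl h => exact ⟨Proc.skip, 0, fun a => h.elim a⟩
  | inr h =>
    obtain ⟨a0⟩ := h
    have : ∀ s : Finset α, PT (fun a => if a ∈ s then f a else f a0) := by
      intro s
      induction s using Finset.induction_on with
      | empty => exact (const (f a0)).of_eq (by simp)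
      | insert b s _ ih =>
        refine (cond (decideEq id' (const b)) (const (f b)) ih).of_eq fun x => ?_
        by_cases hx : x = b <;> simp [hx]
    have hF := Fintype.ofFinite α
    exact (this Finset.univ).of_eq (by simp)

/-- A function whose first argument ranges over a finite type. -/
theorem finCases [Finite β] {c : α → β} {f : β → α → γ} (hc : PT c) (hf : ∀ b, PT (f b)) :
    PT (fun x => f (c x) x) := by
  classical
  cases isEmpty_or_nonempty β with
  | inl h => exact ⟨Proc.skip, 0, fun a => h.elim (c a)⟩
  | inr h =>
    obtain ⟨b0⟩ := h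
    have : ∀ s : Finset β, PT (fun a => if c a ∈ s then f (c a) a else f b0 a) := by
      intro s
      induction s using Finset.induction_on with
      | empty => exact (hf b0).of_eq (by simp)
      | insert b s _ ih =>
        refine (cond (decideEq hc (const b)) (hf b) ih).of_eq fun x => ?_
        by_cases hx : c x = b <;> simp [hx]
    have hF := Fintype.ofFinite β
    exact (this Finset.univ).of_eq (by simp)

/-- A list of constant shape whose entries are polynomial-time. -/
theorem mapConst {ι : Type} (l : List ι) {f : ι → α → β} (hf : ∀ i ∈ l, PT (f i)) :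
    PT (fun x => l.map (fun i => f i x)) := by
  induction l with
  | nil => exact const []
  | cons i l ih =>
    exact cons (hf i (by simp)) (ih fun j hj => hf j (by simp [hj]))

theorem flatMapConst {ι : Type} (l : List ι) {f : ι → α → List β} (hf : ∀ i ∈ l, PT (f i)) :
    PT (fun x => l.flatMap (fun i => f i x)) :=
  (mapConst l hf).flatten.of_eq fun x => by simp [List.flatMap_def]

/-- The size of the input, in unary. -/
theorem unarySize {f : α → β} (hf : PT f) : PT (fun x => List.replicate (size (f x)) ()) :=
  (map (f := fun _ _ => ()) (by fun_prop) hf.enc').of_eq fun x => by simp [size]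

theorem unaryPoly (p : Polynomial ℕ) : PT (fun x : α => List.replicate (p.eval (size x)) ()) := by
  induction p using Polynomial.induction_on with
  | C a => exact (const _).of_eq (fun x => by rw [Polynomial.eval_C])
  | add p q hp hq =>
    exact (append hp hq).of_eq (fun x => by rw [Polynomial.eval_add, List.replicate_add])
  | monomial n a h =>
    refine (flatMap (f := fun x _ => List.replicate (size x) ())
      ((unarySize id').comp' (f := fun p : α × Unit => p.1) (by fun_prop)) h).of_eq fun x => ?_
    simp [pow_succ, mul_assoc, List.flatMap_replicate]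

/-- A polynomial bound can be written down in unary. -/
theorem exists_unary {t : α → ℕ} (ht : PB t) :
    ∃ u : α → List Unit, PT u ∧ ∀ x, t x ≤ (u x).length := by
  obtain ⟨p, hp⟩ := ht
  exact ⟨_, unaryPoly p, fun x => by simpa using hp x⟩

end PT

end Pool.Agent.Lib.Cx
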