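import Mathlib

namespace Pool.Agent.Lib.Cx

open Classical in
/-- The adjacency matrix of a graph on `Fin n`, as the list of its rows. -/
noncomputable def adjRows {n : ℕ} (G : SimpleGraph (Fin n)) : List (List Bool) :=
  List.ofFn fun i => List.ofFn fun j => decide (G.Adj i j)

end Pool.Agent.Lib.Cx
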