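import Pool.Agent.Lib.Cx.All
import Pool.Agent.Lib.Cx.GraphDefs

/-!
Graphs given by adjacency matrices (`adjRows`), for complexity statements about graphs.
-/

namespace Pool.Agent.Lib.Cx

open Function N487b59b3 N68a2faeb N793a5b8e

/-- An entry of a Boolean matrix given as a list of rows. -/
def ent (M : List (List Bool)) (i j : ℕ) : Bool := (M.getD i []).getD j false

@[fun_prop] theorem ent_pt {α : Type} [Enc α] {M : α → List (List Bool)} {i j : α → ℕ}
    (hM : PT M) (hi : PT i) (hj : PT j) : PT (fun x => ent (M x) (i x) (j x)) := by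
  unfold ent; fun_prop

@[simp] theorem length_adjRows {n : ℕ} (G : SimpleGraph (Fin n)) : (adjRows G).length = n := by
  simp [adjRows]

theorem ent_adjRows {n : ℕ} (G : SimpleGraph (Fin n)) (i j : Fin n) :
    ent (adjRows G) i j = true ↔ G.Adj i j := by
  simp [ent, adjRows]

theorem ent_adjRows' {n : ℕ} (G : SimpleGraph (Fin n)) {i j : ℕ} (hi : i < n) (hj : j < n) :
    ent (adjRows G) i j = true ↔ G.Adj ⟨i, hi⟩ ⟨j, hj⟩ := ent_adjRows G ⟨i, hi⟩ ⟨j, hj⟩

theorem ent_adjRows_lt {n : ℕ} (G : SimpleGraph (Fin n)) {i j : ℕ}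
    (h : ent (adjRows G) i j = true) : i < n ∧ j < n := by
  by_cases hi : i < n
  · by_cases hj : j < n
    · exact ⟨hi, hj⟩
    · simp [ent, adjRows, hi, hj] at h
  · simp [ent, adjRows, hi] at h

/-- The matrix is the adjacency matrix of a graph. -/
def IsAdjRows (M : List (List Bool)) : Prop :=
  (∀ r ∈ M, r.length = M.length) ∧
    ∀ i < M.length, ent M i i = false ∧ ∀ j < M.length, ent M i j = ent M j i

@[fun_prop] theorem isAdjRows_pp {α : Type} [Enc α] {M : α → List (List Bool)} (hM : PT M) :
    PP (fun x => IsAdjRows (M x)) := by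
  unfold IsAdjRows; fun_prop

theorem isAdjRows_adjRows {n : ℕ} (G : SimpleGraph (Fin n)) : IsAdjRows (adjRows G) := by
  refine ⟨fun r hr => ?_, fun i hi => ⟨?_, fun j hj => ?_⟩⟩
  · simp only [adjRows, List.mem_ofFn] at hr
    obtain ⟨i, rfl⟩ := hr
    simp
  · rw [length_adjRows] at hi
    have := ent_adjRows' G hi hi
    simpa using this
  · rw [length_adjRows] at hi hj
    rw [Bool.eq_iff_iff, ent_adjRows' G hi hj, ent_adjRows' G hj hi, G.adj_comm]

theorem IsAdjRows.exists_graph {M : List (List Bool)} (h : IsAdjRows M) :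
    ∃ G : SimpleGraph (Fin M.length), adjRows G = M := by
  refine ⟨⟨fun i j => ent M i j = true, ⟨fun i j hij => ?_⟩, ⟨fun i hi => ?_⟩⟩, ?_⟩
  · rw [← (h.2 i i.2).2 j j.2]; exact hij
  · rw [(h.2 i i.2).1] at hi; cases hi
  · refine List.ext_getElem (by simp) fun i h1 h2 => ?_
    have hl := h.1 _ (List.getElem_mem h2)
    refine List.ext_getElem (by simp [adjRows, hl]) fun j h3 h4 => ?_
    simp [adjRows, ent, h4]

theorem adjRows_injective {n : ℕ} : Injective (adjRows : SimpleGraph (Fin n) → _) := by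
  intro G H h
  ext i j
  rw [← ent_adjRows, ← ent_adjRows, h]

open Classical in
/-- The adjacency matrix of the graph induced on a list of vertices. -/
theorem adjRows_comap_get {W : Type} (H : SimpleGraph W) (vs : List W) :
    adjRows (H.comap vs.get) = vs.map (fun a => vs.map (fun b => decide (H.Adj a b))) := by
  refine List.ext_getElem (by simp) fun i h1 h2 => ?_
  refine List.ext_getElem (by simp [adjRows]) fun j h3 h4 => ?_
  simp [adjRows]

/-- A property of a graph together with further data, read on adjacency matrices. -/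
def GraphInst {β : Type} (Q : ∀ n, SimpleGraph (Fin n) → β → Prop)
    (z : List (List Bool) × β) : Prop :=
  ∃ (n : ℕ) (G : SimpleGraph (Fin n)), adjRows G = z.1 ∧ Q n G z.2

theorem graphInst_adjRows {β : Type} (Q : ∀ n, SimpleGraph (Fin n) → β → Prop) {n : ℕ}
    (G : SimpleGraph (Fin n)) (b : β) : GraphInst Q (adjRows G, b) ↔ Q n G b := by
  refine ⟨?_, fun h => ⟨n, G, rfl, h⟩⟩
  rintro ⟨m, H, h1, h2⟩
  obtain rfl : m = n := by simpa using congrArg List.length h1
  obtain rfl : H = G := adjRows_injective h1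
  exact h2

/-- A finite acyclic graph with an edge has a vertex with exactly one neighbour. -/
theorem exists_leaf {V : Type} [Finite V] {G : SimpleGraph V} (h : G.IsAcyclic) {a b : V}
    (hab : G.Adj a b) : ∃ u v, G.Adj u v ∧ ∀ w, G.Adj u w → w = v := by
  have : Nonempty V := ⟨a⟩
  have ⟨u, v, p, hp, hmax⟩ := SimpleGraph.Walk.exists_isPath_forall_isPath_length_le_length G
  have h1 := hmax a b hab.toWalk (by simp [hab.ne])
  have hnil : ¬p.Nil := by
    intro hn
    rw [← SimpleGraph.Walk.length_eq_zero_iff] at hn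
    simp [hn] at h1
  refine ⟨u, _, p.adj_snd hnil, fun w hadj ↦ ?_⟩
  apply h.eq_snd_of_adj_start hp hadj
  by_contra hw
  have := hmax _ _ (p.cons hadj.symm) (hp.cons hw)
  simp at this

end Pool.Agent.Lib.Cx
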