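import Mathlib

/-!
Simple multi-stack Boolean machines (blocks), with sequencing, branching, loops and renaming,
and their compilation to Mathlib's `FinTM2`.
-/

namespace Pool.Agent.Lib.Cx

open Function

/-- One instruction: push a bit, or pop a stack and branch on what was on top. -/
inductive Instr (K Λ : Type) : Type
  | push (k : K) (b : Bool) (next : Λ)
  | pop (k : K) (next : Option Bool → Λ)

abbrev St (K : Type) : Type := K → List Bool

namespace Instr

variable {K K' Λ Λ' : Type}

def exec [DecidableEq K] : Instr K Λ → St K → Λ × St K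
  | push k b n, S => (n, update S k (b :: S k))
  | pop k n, S => (n (S k).head?, update S k (S k).tail)

def map (φ : Λ → Λ') : Instr K Λ → Instr K Λ'
  | push k b n => push k b (φ n)
  | pop k n => pop k (fun o => φ (n o))

def ren (e : K → K') : Instr K Λ → Instr K' Λ
  | push k b n => push (e k) b n
  | pop k n => pop (e k) n

theorem exec_map [DecidableEq K] (φ : Λ → Λ') (i : Instr K Λ) (S : St K) :
    (i.map φ).exec S = (φ (i.exec S).1, (i.exec S).2) := by
  cases i <;> rfl

end Instr

section Steps

variable {K K' Λ Λ' : Type} [DecidableEq K] [DecidableEq K']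

/-- Exactly `n` real steps. -/
inductive Steps (code : Λ → Instr K (Option Λ)) :
    Option Λ × St K → ℕ → Option Λ × St K → Prop
  | refl (c : Option Λ × St K) : Steps code c 0 c
  | step (l : Λ) (S : St K) (n : ℕ) (c : Option Λ × St K) :
      Steps code ((code l).exec S) n c → Steps code (some l, S) (n + 1) c

theorem Steps.trans {code : Λ → Instr K (Option Λ)} {a b c : Option Λ × St K} {m n : ℕ}
    (h1 : Steps code a m b) (h2 : Steps code b n c) : Steps code a (m + n) c := by
  induction h1 with
  | refl c' => simpa using h2
  | step l S k c' _ ih =>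
    have := Steps.step l S _ _ (ih h2)
    rwa [show k + 1 + n = k + n + 1 by omega]

theorem Steps.embed {code : Λ → Instr K (Option Λ)} {code' : Λ' → Instr K (Option Λ')}
    (φ : Option Λ → Option Λ') (ψ : Λ → Λ') (h1 : ∀ l, φ (some l) = some (ψ l))
    (h2 : ∀ l, code' (ψ l) = (code l).map φ) {a b : Option Λ × St K} {n : ℕ}
    (h : Steps code a n b) : Steps code' (φ a.1, a.2) n (φ b.1, b.2) := by
  induction h with
  | refl c => exact Steps.refl _
  | step l S k c _ ih =>
    simp only [h1]
    apply Steps.step
    rw [h2, Instr.exec_map]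
    exact ih

theorem Steps.ren {code : Λ → Instr K (Option Λ)} (e : K → K') (he : Injective e)
    {a b : Option Λ × St K} {n : ℕ} (h : Steps code a n b) (T T' : St K')
    (hT : ∀ k, T (e k) = a.2 k) (hT' : ∀ k, T' (e k) = b.2 k)
    (hfr : ∀ k', (∀ k, e k ≠ k') → T' k' = T k') :
    Steps (fun l => (code l).ren e) (a.1, T) n (b.1, T') := by
  induction h generalizing T with
  | refl c =>
    have : T' = T := by
      funext k'
      by_cases hk : ∃ k, e k = k'
      · obtain ⟨k, rfl⟩ := hk
        rw [hT, hT']
      · exact hfr k' (fun k hk' => hk ⟨k, hk'⟩)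
    rw [this]; exact Steps.refl _
  | step l S k c _ ih =>
    apply Steps.step
    simp only at hT ih
    cases hc : code l with
    | push j b nx =>
      rw [hc] at ih
      simp only [Instr.ren, Instr.exec] at ih ⊢
      apply ih _ _ hT'
      · intro k' hk'
        rw [hfr k' hk', update_of_ne (fun h => hk' j h.symm)]
      · intro k0
        by_cases hj : k0 = j
        · subst hj; simp [hT]
        · rw [update_of_ne (fun h => hj (he h)), update_of_ne hj, hT]
    | pop j nx =>
      rw [hc] at ih
      simp only [Instr.ren, Instr.exec] at ih ⊢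
      rw [hT]
      apply ih _ _ hT'
      · intro k' hk'
        rw [hfr k' hk', update_of_ne (fun h => hk' j h.symm)]
      · intro k0
        by_cases hj : k0 = j
        · subst hj; simp
        · rw [update_of_ne (fun h => hj (he h)), update_of_ne hj, hT]

/-- Each step makes a stack longer by at most one. -/
theorem Steps.length_le {code : Λ → Instr K (Option Λ)} {a b : Option Λ × St K} {n : ℕ}
    (h : Steps code a n b) (k : K) : (b.2 k).length ≤ (a.2 k).length + n := by
  induction h with
  | refl c => simp
  | step l S m c _ ih =>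
    have : (((code l).exec S).2 k).length ≤ (S k).length + 1 := by
      cases code l with
      | push j b nx =>
        simp only [Instr.exec]
        by_cases hj : k = j
        · subst hj; simp
        · rw [update_of_ne hj]; omega
      | pop j nx =>
        simp only [Instr.exec]
        by_cases hj : k = j
        · subst hj; simp; omega
        · rw [update_of_ne hj]; omega
    simp only at ih ⊢
    omega

end Steps

/-- A program fragment with finitely many labels; label `none` is the exit. -/
structure Block (K : Type) : Type 1 where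
  Λ : Type
  [fin : Fintype Λ]
  entry : Option Λ
  code : Λ → Instr K (Option Λ)

attribute [instance] Block.fin

namespace Block

variable {K K' : Type}

def Runs [DecidableEq K] (B : Block K) (S S' : St K) (t : ℕ) : Prop :=
  ∃ n ≤ t, Steps B.code (B.entry, S) n (none, S')

def skip : Block K := { Λ := Empty, entry := none, code := fun x => x.elim }

def push (k : K) (b : Bool) : Block K :=
  { Λ := Unit, entry := some (), code := fun _ => Instr.push k b none }

def seqL (B1 B2 : Block K) : Option B1.Λ → Option (B1.Λ ⊕ B2.Λ)
  | none => B2.entry.map Sum.inr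
  | some l => some (Sum.inl l)

def seq (B1 B2 : Block K) : Block K where
  Λ := B1.Λ ⊕ B2.Λ
  entry := seqL B1 B2 B1.entry
  code := fun l => match l with
    | Sum.inl l => (B1.code l).map (seqL B1 B2)
    | Sum.inr l => (B2.code l).map (Option.map Sum.inr)

def caseL (B : Option Bool → Block K) (o : Option Bool) :
    Option (B o).Λ → Option (Option (Σ o, (B o).Λ)) :=
  Option.map (fun l => some ⟨o, l⟩)

/-- Pop `k` and run the block selected by what was on top. -/
def case (k : K) (B : Option Bool → Block K) : Block K where
  Λ := Option (Σ o, (B o).Λ)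
  entry := some none
  code := fun l => match l with
    | none => Instr.pop k (fun o => caseL B o (B o).entry)
    | some ⟨o, l⟩ => ((B o).code l).map (caseL B o)

def loopL (B : Bool → Block K) (b : Bool) : Option (B b).Λ → Option (Option (Σ b, (B b).Λ))
  | none => some none
  | some l => some (some ⟨b, l⟩)

/-- While `k` is not empty, pop it and run the block selected by the popped bit. -/
def loop (k : K) (B : Bool → Block K) : Block K where
  Λ := Option (Σ b, (B b).Λ)
  entry := some none
  code := fun l => match l with
    | none => Instr.pop k (fun o => match o with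
        | none => none
        | some b => loopL B b (B b).entry)
    | some ⟨b, l⟩ => ((B b).code l).map (loopL B b)

def ren (e : K → K') (B : Block K) : Block K' where
  Λ := B.Λ
  entry := B.entry
  code := fun l => (B.code l).ren e

variable [DecidableEq K] [DecidableEq K']

theorem Runs.mono {B : Block K} {S S' : St K} {t t' : ℕ} (h : B.Runs S S' t) (ht : t ≤ t') :
    B.Runs S S' t' := by
  obtain ⟨n, hn, h⟩ := h
  exact ⟨n, hn.trans ht, h⟩

theorem Runs.length_le {B : Block K} {S S' : St K} {t : ℕ} (h : B.Runs S S' t) (k : K) :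
    (S' k).length ≤ (S k).length + t := by
  obtain ⟨n, hn, h⟩ := h
  have := h.length_le k
  simp only at this
  omega

theorem runs_skip (S : St K) : (skip : Block K).Runs S S 0 := ⟨0, le_rfl, Steps.refl _⟩

theorem runs_push (k : K) (b : Bool) (S : St K) :
    (push k b).Runs S (update S k (b :: S k)) 1 :=
  ⟨1, le_rfl, Steps.step _ _ _ _ (Steps.refl _)⟩

theorem Runs.seq {B1 B2 : Block K} {S1 S2 S3 : St K} {t1 t2 : ℕ} (h1 : B1.Runs S1 S2 t1)
    (h2 : B2.Runs S2 S3 t2) : (seq B1 B2).Runs S1 S3 (t1 + t2) := by
  obtain ⟨n1, hn1, h1⟩ := h1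
  obtain ⟨n2, hn2, h2⟩ := h2
  refine ⟨n1 + n2, by omega, ?_⟩
  have a1 := Steps.embed (code' := (Block.seq B1 B2).code) (seqL B1 B2) Sum.inl (fun _ => rfl)
    (fun _ => rfl) h1
  have a2 := Steps.embed (code' := (Block.seq B1 B2).code) (Option.map Sum.inr) Sum.inr
    (fun _ => rfl) (fun _ => rfl) h2
  exact a1.trans a2

theorem Runs.case {k : K} {B : Option Bool → Block K} {S S' : St K} {t : ℕ}
    (h : (B (S k).head?).Runs (update S k (S k).tail) S' t) : (case k B).Runs S S' (t + 1) := by
  obtain ⟨n, hn, h⟩ := h
  refine ⟨n + 1, by omega, Steps.step _ _ _ _ ?_⟩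
  exact Steps.embed (code' := (Block.case k B).code) (caseL B _) (fun l => some ⟨_, l⟩)
    (fun _ => rfl) (fun _ => rfl) h

theorem runs_loop_nil {k : K} {B : Bool → Block K} {S : St K} (h : S k = []) :
    (loop k B).Runs S S 1 := by
  refine ⟨1, le_rfl, Steps.step _ _ _ _ ?_⟩
  have : update S k (S k).tail = S := by
    rw [h]; exact update_eq_self_iff.2 h.symm
  simp only [loop, Instr.exec, this]
  rw [h]
  exact Steps.refl _

theorem Runs.loop_cons {k : K} {B : Bool → Block K} {S S1 S2 : St K} {b : Bool} {r : List Bool}
    {t1 t2 : ℕ} (h : S k = b :: r) (h1 : (B b).Runs (update S k r) S1 t1)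
    (h2 : (loop k B).Runs S1 S2 t2) : (loop k B).Runs S S2 (t1 + t2 + 1) := by
  obtain ⟨n1, hn1, h1⟩ := h1
  obtain ⟨n2, hn2, h2⟩ := h2
  refine ⟨n1 + n2 + 1, by omega, Steps.step _ _ _ _ ?_⟩
  have a1 := Steps.embed (code' := (Block.loop k B).code) (loopL B b) (fun l => some ⟨b, l⟩)
    (fun _ => rfl) (fun _ => rfl) h1
  simp only [loop, Instr.exec, h, List.head?_cons, List.tail_cons]
  exact a1.trans h2

theorem Runs.ren {B : Block K} {S S' : St K} {t : ℕ} (h : B.Runs S S' t) (e : K → K')
    (he : Injective e) (T T' : St K') (hT : ∀ k, T (e k) = S k) (hT' : ∀ k, T' (e k) = S' k)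
    (hfr : ∀ k', (∀ k, e k ≠ k') → T' k' = T k') : (ren e B).Runs T T' t := by
  obtain ⟨n, hn, h⟩ := h
  exact ⟨n, hn, h.ren e he T T' hT hT' hfr⟩

end Block

/-- The state with `x` on stack `k` and all other stacks empty. -/
def single {K : Type} [DecidableEq K] (k : K) (x : List Bool) : St K :=
  fun j => if j = k then x else []

@[simp] theorem single_self {K : Type} [DecidableEq K] (k : K) (x : List Bool) :
    single k x k = x := by simp [single]

theorem single_of_ne {K : Type} [DecidableEq K] {k j : K} (h : j ≠ k) (x : List Bool) :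
    single k x j = [] := by simp [single, h]

section TM

open Turing Turing.TM2

variable {K : Type} [DecidableEq K] [Fintype K]

/-- The statement for one instruction. -/
def toStmt {Λ : Type} : Instr K Λ → Stmt (fun _ : K => Bool) Λ (Option Bool)
  | Instr.push k b n => Stmt.push k (fun _ => b) (Stmt.goto fun _ => n)
  | Instr.pop k n => Stmt.pop k (fun _ x => x) (Stmt.goto fun v => n v)

omit [Fintype K] in
theorem toStmt_step {Λ : Type} (c : Instr K Λ) (v : Option Bool) (S : St K) :
    ∃ v', stepAux (toStmt c) v S = ⟨some (c.exec S).1, v', (c.exec S).2⟩ := by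
  cases c with
  | push j b nx => exact ⟨v, rfl⟩
  | pop j nx => exact ⟨(S j).head?, rfl⟩

/-- The compiled machine. -/
def toTM (B : Block K) (i o : K) : FinTM2 where
  K := K
  k₀ := i
  k₁ := o
  Γ := fun _ => Bool
  Λ := Option B.Λ
  main := B.entry
  σ := Option Bool
  initialState := none
  m := fun l => match l with
    | none => Stmt.load (fun _ => none) Stmt.halt
    | some l => toStmt (B.code l)

theorem toTM_steps (B : Block K) (i o : K) {a b : Option B.Λ × St K} {n : ℕ}
    (h : Steps B.code a n b) (v : Option Bool) :
    ∃ v', (flip bind (toTM B i o).step)^[n] (some (⟨some a.1, v, a.2⟩ : (toTM B i o).Cfg)) =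
      some (⟨some b.1, v', b.2⟩ : (toTM B i o).Cfg) := by
  induction h generalizing v with
  | refl c => exact ⟨v, rfl⟩
  | step l S k c _ ih =>
    rw [Function.iterate_succ_apply]
    obtain ⟨v1, h1⟩ := toStmt_step (B.code l) v S
    obtain ⟨v', hv⟩ := ih v1
    refine ⟨v', ?_⟩
    rw [← hv]
    congr 1
    exact congrArg some h1

theorem toTM_outputs (B : Block K) (i o : K) (x y : List Bool) (t : ℕ)
    (h : B.Runs (single i x) (single o y) t) :
    Nonempty (TM2OutputsInTime (toTM B i o) x (some y) (t + 1)) := by
  obtain ⟨n, hn, h⟩ := h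
  obtain ⟨v', hv⟩ := toTM_steps B i o h none
  refine ⟨⟨⟨n + 1, ?_⟩, by simpa using hn⟩⟩
  rw [Function.iterate_succ_apply']
  have e1 : initList (toTM B i o) x = (⟨some B.entry, none, single i x⟩ : (toTM B i o).Cfg) := by
    simp only [initList, toTM]
    congr 1
  have e2 : haltList (toTM B i o) y = (⟨none, none, single o y⟩ : (toTM B i o).Cfg) := by
    simp only [haltList, toTM]
    congr 1
  rw [e1]
  simp only at hv
  erw [hv]
  exact congrArg some e2.symm

end TM

end Pool.Agent.Lib.Cx
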