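import Pool.Agent.Lib.Cx.Cook
import Pool.Prelude.Def_F_458e953d

/-!
Membership in `P` and `NP`, NP-hardness, and the Cook-Levin theorem for the Prelude classes.
-/

namespace Pool.Agent.Lib.Cx

open Function N487b59b3 N68a2faeb N793a5b8e

/-- The code words can be decoded in polynomial time. -/
class Dec (α : Type) [Enc α] : Prop where
  dec : ∃ d : List Bool → Option α, PT d ∧ ∀ a, d (enc a) = some a

section dec

/-- Split off the first delimited block. -/
def unpair : List Bool → List Bool × List Bool
  | [] => ([], [])
  | false :: r => ([], r)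
  | [true] => ([], [])
  | true :: b :: r => (b :: (unpair r).1, (unpair r).2)

theorem unpair_delimit (x y : List Bool) : unpair (delimit x ++ y) = (x, y) := by
  induction x with
  | nil => rfl
  | cons b x ih => simp [delimit, unpair, ih]

theorem unpair_length : ∀ l : List Bool, (unpair l).1.length + (unpair l).2.length ≤ l.length - 1
  | [] => by simp [unpair]
  | false :: r => by simp [unpair]
  | [true] => by simp [unpair]
  | true :: b :: r => by have := unpair_length r; simp [unpair]; omega

theorem unpair_pt : PT unpair := by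
  have key : ∀ l : List Bool, l.foldr (fun c (s : List Bool × (List Bool × List Bool) ×
      (List Bool × List Bool)) => (c :: s.1, (bif c then s.1.head?.elim ([], [])
        (fun b => (b :: s.2.2.1, s.2.2.2)) else ([], s.1)), s.2.1)) ([], ([], []), ([], [])) =
      (l, unpair l, unpair l.tail) := by
    intro l
    induction l with
    | nil => rfl
    | cons c l ih => rw [List.foldr_cons, ih]; cases c <;> cases l <;> simp [unpair]
  refine (PT.foldr (f := fun _ c (s : List Bool × (List Bool × List Bool) ×
      (List Bool × List Bool)) => (c :: s.1, (bif c then s.1.head?.elim ([], [])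
        (fun b => (b :: s.2.2.1, s.2.2.2)) else ([], s.1)), s.2.1)) (by fun_prop) PT.id'
      (PT.const ([], ([], []), ([], []))) (fun l => 30 * l.length + 10) (by fun_prop)
      fun x i => ?_).snd.fst.of_eq fun x => by rw [key]
  rw [key]
  have h1 := unpair_length (x.drop i)
  have h2 := unpair_length (x.drop i).tail
  have h3 : (x.drop i).length ≤ x.length := by simp
  have h4 : (x.drop i).tail.length ≤ x.length := by simp
  simp only [size_prod, size_listBool]
  omega

/-- Split off one more block. -/
def blockStep (s : List Bool × List (List Bool)) : List Bool × List (List Bool) :=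
  if s.1 = [] then s else ((unpair s.1).2, s.2 ++ [(unpair s.1).1])

theorem blockStep_iter (l : List (List Bool)) (acc : List (List Bool)) (n : ℕ)
    (h : l.length ≤ n) : blockStep^[n] ((l.map delimit).flatten, acc) = ([], acc ++ l) := by
  induction l generalizing acc n with
  | nil => simpa using Function.iterate_fixed (by simp [blockStep]) n
  | cons b l ih =>
    obtain ⟨n, rfl⟩ : ∃ m, n = m + 1 := ⟨n - 1, by simp at h; omega⟩
    rw [Function.iterate_succ_apply]
    have h1 : delimit b ++ (l.map delimit).flatten ≠ [] := by cases b <;> simp [delimit]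
    simp only [blockStep, List.map_cons, List.flatten_cons, h1, if_false, unpair_delimit]
    rw [ih _ _ (by simpa using h)]
    simp

theorem blockStep_size (n : ℕ) (s : List Bool × List (List Bool)) :
    size (blockStep^[n] s) ≤ size s := by
  induction n with
  | zero => exact le_rfl
  | succ n ih =>
    rw [Function.iterate_succ_apply']
    refine le_trans ?_ ih
    generalize blockStep^[n] s = t
    unfold blockStep
    split_ifs with h
    · exact le_rfl
    · have h1 := unpair_length t.1
      have h2 := List.length_pos_of_ne_nil h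
      simp only [size_prod, size_append, size_cons, size_listBool, size_nil]
      omega

theorem blocks_pt : PT (fun x : List Bool => (blockStep^[x.length] (x, [])).2) := by
  have h := unpair_pt
  have h1 : PT blockStep := by unfold blockStep; fun_prop
  exact (PT.iterate (f := fun _ => blockStep) (by fun_prop) (by fun_prop) (by fun_prop)
    (by fun_prop) (fun x => size (x, ([] : List (List Bool)))) (by fun_prop)
    (fun x i _ => blockStep_size _ _)).snd

variable {α β : Type} [Enc α] [Enc β]

instance : Dec Bool := ⟨⟨List.head?, PT.id'.head?, fun _ => rfl⟩⟩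

instance : Dec Unit := ⟨⟨fun _ => some (), PT.const _, fun _ => rfl⟩⟩

instance : Dec ℕ := ⟨⟨fun l => some (ofBits l), by fun_prop, fun n => congrArg some (ofBits_enc n)⟩⟩

instance [h1 : Dec α] [h2 : Dec β] : Dec (α × β) := by
  obtain ⟨d1, p1, e1⟩ := h1.dec
  obtain ⟨d2, p2, e2⟩ := h2.dec
  have h := unpair_pt
  refine ⟨⟨fun l => (d1 (unpair l).1).bind (fun a => (d2 (unpair l).2).map (fun b => (a, b))),
    by fun_prop, fun a => ?_⟩⟩
  simp [enc_prod, unpair_delimit, e1, e2]

instance [h1 : Dec α] : Dec (List α) := by
  obtain ⟨d1, p1, e1⟩ := h1.dec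
  refine ⟨⟨fun x => some (((blockStep^[x.length] (x, [])).2).filterMap d1),
    (PT.filterMap (by fun_prop) blocks_pt).some', fun l => ?_⟩⟩
  have : enc l = ((l.map enc).map delimit).flatten := rfl
  simp only
  rw [this, blockStep_iter _ _ _ (by rw [← this, List.length_map]; exact length_le_size l)]
  simp [List.filterMap_map, e1]

instance [h1 : Dec α] : Dec (Option α) := by
  obtain ⟨d1, p1, e1⟩ := (inferInstance : Dec (List α)).dec
  exact ⟨⟨fun x => (d1 x).map List.head?, by fun_prop, fun o => by
    simp only [enc_option, e1]; cases o <;> rfl⟩⟩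

end dec

variable {α β : Type} [Enc α] [Enc β]

open Classical in
/-- The language of the code words of the instances with property `P`. -/
noncomputable def langOf (P : α → Prop) : DecisionProblem :=
  fun x => decide (∃ a, bitEncode a = x ∧ P a)

theorem langOf_enc (P : α → Prop) (a : α) : langOf P (enc a) = true ↔ P a := by
  simp only [langOf, decide_eq_true_eq]
  exact ⟨fun ⟨b, hb, h⟩ => (enc_injective hb : b = a) ▸ h, fun h => ⟨a, rfl, h⟩⟩

theorem langOf_mem_P [hd : Dec α] {P : α → Prop} (h : PP P) : langOf P ∈ N68a2faeb.P := by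
  classical
  obtain ⟨d, p, e⟩ := hd.dec
  have : PT (fun x => (d x).elim false (fun a => decide (enc a = x ∧ P a))) := by fun_prop
  refine (this.of_eq fun x => ?_).isPolyTime
  rw [Bool.eq_iff_iff]
  simp only [langOf, decide_eq_true_eq]
  constructor
  · rintro ⟨a, rfl, ha⟩
    change (d (enc a)).elim _ _ = true
    simp only [e, Option.elim, decide_eq_true_eq]
    exact ⟨rfl, ha⟩
  · cases d x with
    | none => simp
    | some a => intro h; exact ⟨a, of_decide_eq_true h⟩

/-- Membership in NP from a typed verifier. -/
theorem langOf_mem_NP [hd : Dec α] [he : Dec β] {P : α → Prop} (R : α × β → Prop) (hR : PP R)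
    (M : α → ℕ) (hM : PB M) (sound : ∀ a b, R (a, b) → P a)
    (complete : ∀ a, P a → ∃ b, size b ≤ M a ∧ R (a, b)) : langOf P ∈ NP := by
  classical
  obtain ⟨d, p, e⟩ := hd.dec
  obtain ⟨d', p', e'⟩ := he.dec
  obtain ⟨q, hq⟩ := hM
  have : PT (fun z : List Bool × List Bool => (d z.1).elim false (fun a =>
      (d' z.2).elim false (fun b => decide (enc a = z.1 ∧ R (a, b))))) := by fun_prop
  refine ⟨q, _, this.isPolyTime, fun x => ?_⟩
  simp only [langOf, decide_eq_true_eq]
  constructor
  · rintro ⟨a, rfl, ha⟩
    obtain ⟨b, hb, hab⟩ := complete a ha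
    refine ⟨enc b, hb.trans (hq a), ?_⟩
    change (d (enc a)).elim _ _ = true
    simp only [e, e', Option.elim, decide_eq_true_eq]
    exact ⟨rfl, hab⟩
  · rintro ⟨w, -, h⟩
    revert h
    cases d x with
    | none => simp
    | some a =>
      cases d' w with
      | none => simp
      | some b =>
        intro h
        simp only [Option.elim, decide_eq_true_eq] at h
        exact ⟨a, h.1, sound a b h.2⟩

/-- Every language in NP reduces to `Q` by a map whose values all satisfy the promise `Pr`. -/
def HardOn (Pr Q : β → Prop) : Prop :=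
  ∀ L ∈ NP, ∃ f : List Bool → β, PT f ∧ ∀ x, Pr (f x) ∧ (L x = true ↔ Q (f x))

theorem HardOn.of_red {Pr P : α → Prop} {Pr' Q : β → Prop} (h : HardOn Pr P) (f : α → β)
    (hf : PT f) (hc : ∀ a, Pr a → Pr' (f a) ∧ (P a ↔ Q (f a))) : HardOn Pr' Q := by
  intro L hL
  obtain ⟨g, hg, e⟩ := h L hL
  exact ⟨fun x => f (g x), hf.comp' hg, fun x =>
    ⟨(hc _ (e x).1).1, (e x).2.trans (hc _ (e x).1).2⟩⟩

/-- NP-hardness of any property that agrees with `Q` on the instances satisfying the promise. -/
theorem HardOn.manyOne {Pr Q Q' : β → Prop} (h : HardOn Pr Q) (hq : ∀ b, Pr b → (Q b ↔ Q' b)) :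
    ∀ L ∈ NP, ManyOneReducible L (langOf Q') := by
  intro L hL
  obtain ⟨g, hg, e⟩ := h L hL
  refine ⟨fun x => enc (g x), hg.enc'.isPolyTime, fun x => ?_⟩
  rw [Bool.eq_iff_iff, langOf_enc, (e x).2, hq _ (e x).1]

theorem HardOn.isComplete {Pr Q Q' : β → Prop} (h : HardOn Pr Q)
    (hq : ∀ b, Pr b → (Q b ↔ Q' b)) (hm : langOf Q' ∈ NP) : IsCompleteFor NP (langOf Q') :=
  ⟨hm, h.manyOne hq⟩

/-- Remove the padding of a witness. -/
def unpad (w : List Bool) : List Bool := (w.dropWhile (fun b => !b)).tail

theorem unpad_pad (k : ℕ) (w : List Bool) : unpad (List.replicate k false ++ true :: w) = w := by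
  induction k with
  | zero => simp [unpad]
  | succ k ih => simp [unpad, List.replicate_succ]

theorem length_unpad (w : List Bool) : (unpad w).length ≤ w.length - 1 := by
  have := (List.dropWhile_sublist (l := w) (fun b => !b)).length_le
  simp only [unpad, List.length_tail]
  omega

theorem sat3_rename {V : Type} [DecidableEq V] (φ : List (Clause3 V)) :
    Sat3 φ ↔ Sat3 (rename3 [] φ) := by
  have := rename3_spec [] List.nodup_nil φ (fun _ h => absurd h (by simp))
  simpa [Sat3] using this

/-- The Cook-Levin theorem: 3-SAT is NP-hard, even when the variables are numbers below three times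
the number of clauses. -/
theorem hardOn_sat3 :
    HardOn (fun φ : List (Clause3 ℕ) => ∀ v ∈ vars3 φ, v < 3 * φ.length) Sat3 := by
  rintro L ⟨p, R, hR, hL⟩
  have hR' := PT.of_isPolyTime hR
  have h1 : PT (fun z : List Bool × PT.Raw => R (z.1, unpad z.2.val)) := by
    have : PT (fun z : List Bool × PT.Raw => z.2.val) :=
      PT.enc' (f := fun z : List Bool × PT.Raw => z.2) (by fun_prop)
    unfold unpad
    fun_prop
  obtain ⟨Φ, hΦ, -, hc⟩ := Cmp.exists_cnf h1
  let pre : List Bool → List Bool := fun x => delimit (enc x)
  have hpre : PT pre := by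
    simp only [pre, Cmp.delimit_eq]; fun_prop
  let ψ : List Bool → List (Clause3 ℕ) := fun x =>
    (pre x).zipIdx.map (fun z => ((z.2, z.1), (z.2, z.1), (z.2, z.1))) ++
      Φ (List.replicate ((pre x).length + (p.eval x.length + 1)) ())
  have hψ : PT ψ := by simp only [ψ]; fun_prop
  refine ⟨fun x => rename3 [] (ψ x), by fun_prop, fun x => ⟨?_, ?_⟩⟩
  · simpa [rename3] using rename3_vars [] (ψ x)
  · rw [← sat3_rename, hL]
    have he : ∀ w, enc (x, PT.Raw.mk w) = pre x ++ w := fun _ => rfl
    constructor
    · rintro ⟨w, hw, hRw⟩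
      obtain ⟨k, hk⟩ := Nat.exists_eq_add_of_le hw
      obtain ⟨s, s1, s2⟩ := (hc (x, ⟨List.replicate k false ++ true :: w⟩)
        (List.replicate ((pre x).length + (p.eval x.length + 1)) ())
        (by rw [he]; simp; omega)).1 (by simpa [unpad_pad] using hRw)
      refine ⟨s, fun c hc => ?_⟩
      rcases List.mem_append.1 hc with hc | hc
      · obtain ⟨⟨b, j⟩, hz, rfl⟩ := List.mem_map.1 hc
        obtain ⟨hj, hb⟩ := List.mem_zipIdx' hz
        left
        simp only
        rw [s1 j (by rw [he]; simp; omega), hb]
        simp only [he]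
        rw [List.getElem_append_left hj]
      · exact s2 c hc
    · rintro ⟨s, hs⟩
      let w : List Bool := (List.range (p.eval x.length + 1)).map (fun j => s ((pre x).length + j))
      refine ⟨unpad w, (length_unpad w).trans (by simp [w]), ?_⟩
      refine (hc (x, ⟨w⟩) (List.replicate ((pre x).length + (p.eval x.length + 1)) ())
        (by rw [he]; simp [w])).2 ⟨s, fun j hj => ?_, fun c hc => hs c (List.mem_append_right _ hc)⟩
      simp only [he]
      by_cases hj' : j < (pre x).length
      · rw [List.getElem_append_left hj']
        have := hs _ (List.mem_append_left _ (List.mem_map_of_mem (a := ((pre x)[j], j))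
          (by simp [List.mem_zipIdx_iff_getElem?])))
        simpa [Clause3.Holds] using this
      · rw [List.getElem_append_right (by omega)]
        simp only [w, List.getElem_map, List.getElem_range]
        congr 1
        omega

end Pool.Agent.Lib.Cx
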