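import Pool.Agent.Lib.Cx.Fold

/-!
Arithmetic on natural numbers in binary.
-/

namespace Pool.Agent.Lib.Cx

open Function N487b59b3 Computability

theorem enc_nat (n : ℕ) : enc n = n.bits := by
  change encodeNum (n : Num) = n.bits
  rw [← Num.ofNat'_eq]
  induction n using Nat.binaryRec' with
  | zero => simp [encodeNum]
  | bit b n h ih =>
    rw [Num.ofNat'_bit, Nat.bits_append_bit n b h, ← ih]
    cases b
    · have hn : n ≠ 0 := fun h0 => by simpa using h h0
      cases hm : Num.ofNat' n with
      | zero =>
        exfalso
        apply hn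
        have := congrArg (fun x : Num => (x : ℕ)) hm
        simpa [Num.ofNat'_eq] using this
      | pos p => rfl
    · cases hm : Num.ofNat' n <;> rfl

theorem size_nat (n : ℕ) : size n = n.size := by
  rw [size, enc_nat, Nat.size_eq_bits_len]

theorem size_nat_mono {m n : ℕ} (h : m ≤ n) : size m ≤ size n := by
  rw [size_nat, size_nat]; exact Nat.size_le_size h

theorem size_nat_le_self (n : ℕ) : size n ≤ n := by
  rw [size_nat, Nat.size_le]; exact Nat.lt_two_pow_self

theorem lt_two_pow_size (n : ℕ) : n < 2 ^ size n := by
  rw [size_nat]; exact Nat.lt_size_self n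

theorem size_nat_le_iff {n k : ℕ} : size n ≤ k ↔ n < 2 ^ k := by
  rw [size_nat, Nat.size_le]

@[simp] theorem size_nat_zero : size (0 : ℕ) = 0 := by simp [size_nat]

theorem size_bit_le (b : Bool) (n : ℕ) : size (Nat.bit b n) ≤ size n + 1 := by
  rw [size_nat_le_iff, pow_succ]
  have := lt_two_pow_size n
  cases b <;> simp [Nat.bit] <;> omega

theorem size_add_le (m n : ℕ) : size (m + n) ≤ size m + size n + 1 := by
  rw [size_nat_le_iff, pow_succ, pow_add]
  have h1 := lt_two_pow_size n
  have h2 := lt_two_pow_size m
  have h3 : 0 < 2 ^ size n := by positivity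
  have h4 : 0 < 2 ^ size m := by positivity
  nlinarith

theorem size_mul_le (m n : ℕ) : size (m * n) ≤ size m + size n := by
  rw [size_nat_le_iff, pow_add]
  exact Nat.mul_lt_mul'' (lt_two_pow_size m) (lt_two_pow_size n)

theorem size_pow_le (m k : ℕ) : size (m ^ k) ≤ k * size m + 1 := by
  induction k with
  | zero => simp [size_nat]
  | succ k ih =>
    rw [pow_succ]
    have := size_mul_le (m ^ k) m
    nlinarith

/-- The number with the given binary digits, least significant first. -/
def ofBits (l : List Bool) : ℕ := l.foldr Nat.bit 0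

@[simp] theorem ofBits_nil : ofBits [] = 0 := rfl

@[simp] theorem ofBits_cons (b : Bool) (l : List Bool) :
    ofBits (b :: l) = Nat.bit b (ofBits l) := rfl

theorem ofBits_bits (n : ℕ) : ofBits n.bits = n := by
  induction n using Nat.binaryRec' with
  | zero => rfl
  | bit b n h ih => rw [Nat.bits_append_bit n b h, ofBits_cons, ih]

theorem ofBits_enc (n : ℕ) : ofBits (enc n) = n := by rw [enc_nat, ofBits_bits]

theorem ofBits_pad (l m : List Bool) : ofBits (l ++ m.map (fun _ => false)) = ofBits l := by
  induction l with
  | nil =>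
    induction m with
    | nil => rfl
    | cons a m ih =>
      simp only [List.nil_append] at ih
      simp only [List.nil_append, List.map_cons, ofBits_cons, ih]; rfl
  | cons a l ih => simp only [List.cons_append, ofBits_cons, ih]

theorem size_ofBits_le (l : List Bool) : size (ofBits l) ≤ l.length := by
  induction l with
  | nil => simp
  | cons b l ih => exact (size_bit_le _ _).trans (Nat.succ_le_succ ih)

theorem bit_val' (b : Bool) (n : ℕ) : Nat.bit b n = 2 * n + b.toNat := Nat.bit_val b n

/-- The binary digits of two numbers, side by side. -/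
def zipBits (m n : ℕ) : List (Bool × Bool) :=
  (enc m ++ (enc n).map (fun _ => false)).zip (enc n ++ (enc m).map (fun _ => false))

theorem zipBits_fst (m n : ℕ) : ofBits ((zipBits m n).map Prod.fst) = m := by
  rw [zipBits, List.map_fst_zip (by simp; omega), ofBits_pad, ofBits_enc]

theorem zipBits_snd (m n : ℕ) : ofBits ((zipBits m n).map Prod.snd) = n := by
  rw [zipBits, List.map_snd_zip (by simp; omega), ofBits_pad, ofBits_enc]

variable {α β γ δ : Type} [Enc α] [Enc β] [Enc γ] [Enc δ]

namespace PT

theorem isZero {f : α → ℕ} (hf : PT f) : PT (fun x => decide (f x = 0)) :=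
  decideEq hf (const 0)

@[fun_prop] theorem bit {b : α → Bool} {f : α → ℕ} (hb : PT b) (hf : PT f) :
    PT (fun x => Nat.bit (b x) (f x)) := by
  refine of_enc ((cond (and hf.isZero hb.not) (const []) (cons hb hf.enc')).of_eq fun x => ?_)
  by_cases h : f x = 0 → b x = true
  · rw [enc_nat, Nat.bits_append_bit _ _ h, enc_nat]
    by_cases h0 : f x = 0
    · simp [h h0]
    · simp [h0]
  · push Not at h
    simp [h.1, h.2, enc_nat]

@[fun_prop] theorem ofBits' {l : α → List Bool} (hl : PT l) : PT (fun x => ofBits (l x)) :=
  foldr_add (f := fun _ b n => Nat.bit b n) (by fun_prop) hl (const 0) (fun _ => 1) (by fun_prop)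
    (fun _ _ _ _ => size_bit_le _ _)

@[fun_prop] theorem zipBits' {f g : α → ℕ} (hf : PT f) (hg : PT g) :
    PT (fun x => zipBits (f x) (g x)) := by
  unfold zipBits; fun_prop

@[fun_prop] theorem toNat {b : α → Bool} (hb : PT b) : PT (fun x => (b x).toNat) :=
  (of_finite Bool.toNat).comp' hb

theorem addOne {f : α → ℕ} (hf : PT f) : PT (fun x => f x + 1) := by
  have key : ∀ l : List Bool, l.foldr (fun b (s : ℕ × ℕ) =>
      (Nat.bit b s.1, bif b then Nat.bit false s.2 else Nat.bit true s.1)) (0, 1) =
      (ofBits l, ofBits l + 1) := by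
    intro l
    induction l with
    | nil => rfl
    | cons b l ih => rw [List.foldr_cons, ih]; cases b <;> simp [bit_val']; omega
  refine (foldr (f := fun _ b (s : ℕ × ℕ) =>
      (Nat.bit b s.1, bif b then Nat.bit false s.2 else Nat.bit true s.1)) (by fun_prop) hf.enc'
      (const (0, 1)) (fun x => 3 * size (f x) + 3) (by fun_prop) fun x i => ?_).snd.of_eq
      fun x => by rw [key, ofBits_enc]
  rw [key]
  have h2 := size_ofBits_le ((enc (f x)).drop i)
  have h3 := size_add_le (ofBits ((enc (f x)).drop i)) 1
  have h4 : size (1 : ℕ) ≤ 1 := size_nat_le_self 1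
  have h5 : ((enc (f x)).drop i).length ≤ size (f x) := by simp [size]
  simp only [size_prod]
  omega

theorem subOne {f : α → ℕ} (hf : PT f) : PT (fun x => f x - 1) := by
  have key : ∀ l : List Bool, l.foldr (fun b (s : ℕ × ℕ) =>
      (Nat.bit b s.1, bif b then Nat.bit false s.1 else
        bif decide (s.1 = 0) then 0 else Nat.bit true s.2)) (0, 0) =
      (ofBits l, ofBits l - 1) := by
    intro l
    induction l with
    | nil => rfl
    | cons b l ih =>
      rw [List.foldr_cons, ih]
      cases b
      · by_cases h : ofBits l = 0 <;> simp [bit_val', h]; omega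
      · simp [bit_val']
  have hz : PT (fun p : α × Bool × ℕ × ℕ => decide (p.2.2.1 = 0)) := isZero (by fun_prop)
  refine (foldr (f := fun _ b (s : ℕ × ℕ) =>
      (Nat.bit b s.1, bif b then Nat.bit false s.1 else
        bif decide (s.1 = 0) then 0 else Nat.bit true s.2))
      (prodMk (by fun_prop) (cond (by fun_prop) (by fun_prop)
        (cond hz (by fun_prop) (by fun_prop)))) hf.enc'
      (const (0, 0)) (fun x => 3 * size (f x) + 3) (by fun_prop) fun x i => ?_).snd.of_eq
      fun x => by rw [key, ofBits_enc]
  rw [key]
  have h2 := size_ofBits_le ((enc (f x)).drop i)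
  have h3 := size_nat_mono (Nat.sub_le (ofBits ((enc (f x)).drop i)) 1)
  have h5 : ((enc (f x)).drop i).length ≤ size (f x) := by simp [size]
  simp only [size_prod]
  omega

@[fun_prop] theorem add {f g : α → ℕ} (hf : PT f) (hg : PT g) : PT (fun x => f x + g x) := by
  have key : ∀ l : List (Bool × Bool), l.foldr (fun p (s : ℕ) =>
      bif p.2 then Nat.bit p.1 s + 1 else Nat.bit p.1 s) 0 =
      ofBits (l.map Prod.fst) + ofBits (l.map Prod.snd) := by
    intro l
    induction l with
    | nil => rfl
    | cons b l ih =>
      rw [List.foldr_cons, ih]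
      obtain ⟨b1, b2⟩ := b
      cases b2 <;> simp [bit_val'] <;> omega
  refine (foldr_add (f := fun _ (p : Bool × Bool) (s : ℕ) =>
      bif p.2 then Nat.bit p.1 s + 1 else Nat.bit p.1 s)
      (cond (by fun_prop) (addOne (by fun_prop)) (by fun_prop)) (zipBits' hf hg) (const 0)
      (fun _ => 3) (by fun_prop) fun x b a _ => ?_).of_eq
      fun x => by rw [key, zipBits_fst, zipBits_snd]
  have h1 := size_bit_le a.1 b
  have h3 := size_add_le (Nat.bit a.1 b) 1
  have h4 : size (1 : ℕ) ≤ 1 := size_nat_le_self 1
  cases a.2 <;> simp <;> omega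

@[fun_prop] theorem succ {f : α → ℕ} (hf : PT f) : PT (fun x => (f x).succ) := addOne hf

theorem decideLt {f g : α → ℕ} (hf : PT f) (hg : PT g) : PT (fun x => decide (f x < g x)) := by
  have key : ∀ l : List (Bool × Bool), l.foldr (fun p (s : Bool × Bool) =>
      (s.1 || (!s.2 && !p.1 && p.2), s.2 || (!s.1 && p.1 && !p.2))) (false, false) =
      (decide (ofBits (l.map Prod.fst) < ofBits (l.map Prod.snd)),
        decide (ofBits (l.map Prod.snd) < ofBits (l.map Prod.fst))) := by
    intro l
    induction l with
    | nil => rfl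
    | cons b l ih =>
      rw [List.foldr_cons, ih]
      obtain ⟨b1, b2⟩ := b
      simp only [List.map_cons, ofBits_cons, bit_val']
      generalize ofBits (l.map Prod.fst) = u
      generalize ofBits (l.map Prod.snd) = v
      cases b1 <;> cases b2 <;> by_cases h1 : u < v <;> by_cases h2 : v < u <;>
        simp [h1, h2] <;> omega
  exact (foldr_add (f := fun _ (p : Bool × Bool) (s : Bool × Bool) =>
      (s.1 || (!s.2 && !p.1 && p.2), s.2 || (!s.1 && p.1 && !p.2)))
      (by fun_prop) (zipBits' hf hg) (const (false, false))
      (fun _ => 0) (by fun_prop) fun x b a _ => by simp).fst.of_eq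
      fun x => by rw [key, zipBits_fst, zipBits_snd]

@[fun_prop] theorem sub {f g : α → ℕ} (hf : PT f) (hg : PT g) : PT (fun x => f x - g x) := by
  have key : ∀ l : List (Bool × Bool), ofBits (l.map Prod.snd) ≤ ofBits (l.map Prod.fst) →
      l.foldr (fun p (s : ℕ) => bif p.2 then Nat.bit p.1 s - 1 else Nat.bit p.1 s) 0 =
      ofBits (l.map Prod.fst) - ofBits (l.map Prod.snd) := by
    intro l
    induction l with
    | nil => intro _; rfl
    | cons b l ih =>
      intro h
      obtain ⟨b1, b2⟩ := b
      simp only [List.map_cons, ofBits_cons, bit_val'] at h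
      rw [List.foldr_cons, ih (by cases b1 <;> cases b2 <;> simp at h <;> omega)]
      cases b1 <;> cases b2 <;> simp [bit_val'] at h ⊢ <;> omega
  have h1 := (foldr_add (f := fun _ (p : Bool × Bool) (s : ℕ) =>
      bif p.2 then Nat.bit p.1 s - 1 else Nat.bit p.1 s)
      (cond (by fun_prop) (subOne (by fun_prop)) (by fun_prop)) (zipBits' hf hg) (const 0)
      (fun _ => 1) (by fun_prop) fun x b a _ => by
        have h1 := size_bit_le a.1 b
        have h3 := size_nat_mono (Nat.sub_le (Nat.bit a.1 b) 1)
        cases a.2 <;> simp <;> omega)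
  refine (cond (decideLt hf hg) (const 0) h1).of_eq fun x => ?_
  by_cases h : f x < g x
  · simp [h]; omega
  · rw [key _ (by rw [zipBits_fst, zipBits_snd]; omega), zipBits_fst, zipBits_snd]
    simp [h]

@[fun_prop] theorem pred {f : α → ℕ} (hf : PT f) : PT (fun x => (f x).pred) := subOne hf

@[fun_prop] theorem mul {f g : α → ℕ} (hf : PT f) (hg : PT g) : PT (fun x => f x * g x) := by
  have key : ∀ (m : ℕ) (l : List Bool), l.foldr (fun b (s : ℕ) =>
      Nat.bit false s + bif b then m else 0) 0 = m * ofBits l := by
    intro m l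
    induction l with
    | nil => rfl
    | cons b l ih => rw [List.foldr_cons, ih]; cases b <;> simp [bit_val'] <;> ring
  refine (foldr_add (f := fun x b (s : ℕ) => Nat.bit false s + bif b then f x else 0)
      (by fun_prop) hg.enc' (const 0) (fun x => size (f x) + 2) (by fun_prop)
      fun x b a _ => ?_).of_eq fun x => by rw [key, ofBits_enc]
  have h1 := size_bit_le false b
  have h3 := size_add_le (Nat.bit false b) (bif a then f x else 0)
  have h4 : size (bif a then f x else 0) ≤ size (f x) := by cases a <;> simp
  omega

theorem divMod {f g : α → ℕ} (hf : PT f) (hg : PT g) :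
    PT (fun x => (f x / g x, f x % g x)) := by
  have key : ∀ (m : ℕ), 0 < m → ∀ (l : List Bool), l.foldr (fun b (s : ℕ × ℕ) =>
      bif decide (Nat.bit b s.2 < m) then (Nat.bit false s.1, Nat.bit b s.2)
      else (Nat.bit true s.1, Nat.bit b s.2 - m)) (0, 0) = (ofBits l / m, ofBits l % m) := by
    intro m hm l
    induction l with
    | nil => simp
    | cons b l ih =>
      rw [List.foldr_cons, ih, ofBits_cons]
      generalize ofBits l = u
      have h1 := Nat.div_add_mod u m
      have h2 := Nat.mod_lt u hm
      have h3 : b.toNat ≤ 1 := by cases b <;> simp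
      simp only [bit_val']
      by_cases h : 2 * (u % m) + b.toNat < m
      · simp only [h, decide_true, cond_true, Bool.toNat_false, add_zero]
        have := (Nat.div_mod_unique hm (a := 2 * u + b.toNat) (c := 2 * (u % m) + b.toNat)
          (d := 2 * (u / m))).2 ⟨by nlinarith, h⟩
        rw [this.1, this.2]
      · simp only [h, decide_false, cond_false, Bool.toNat_true]
        obtain ⟨w, hw⟩ : ∃ w, 2 * (u % m) + b.toNat = m + w := ⟨2 * (u % m) + b.toNat - m, by omega⟩
        have := (Nat.div_mod_unique hm (a := 2 * u + b.toNat) (c := w)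
          (d := 2 * (u / m) + 1)).2 ⟨by nlinarith, by omega⟩
        rw [this.1, this.2, hw, Nat.add_sub_cancel_left]
  have hlt : PT (fun p : α × Bool × ℕ × ℕ => decide (Nat.bit p.2.1 p.2.2.2 < g p.1)) :=
    decideLt (by fun_prop) (by fun_prop)
  have h1 := foldr_add (f := fun x b (s : ℕ × ℕ) =>
      bif decide (Nat.bit b s.2 < g x) then (Nat.bit false s.1, Nat.bit b s.2)
      else (Nat.bit true s.1, Nat.bit b s.2 - g x)) (cond hlt (by fun_prop) (by fun_prop))
      hf.enc' (const (0, 0)) (fun _ => 3) (by fun_prop) fun x s a _ => by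
        have h1 := size_bit_le false s.1
        have h2 := size_bit_le true s.1
        have h3 := size_bit_le a s.2
        have h4 := size_nat_mono (Nat.sub_le (Nat.bit a s.2) (g x))
        cases decide (Nat.bit a s.2 < g x) <;> simp only [cond_true, cond_false, size_prod] <;>
          omega
  refine (cond hg.isZero (prodMk (const 0) hf) h1).of_eq fun x => ?_
  by_cases h : g x = 0
  · simp [h]
  · rw [key _ (Nat.pos_of_ne_zero h), ofBits_enc]
    simp [h]

@[fun_prop] theorem div {f g : α → ℕ} (hf : PT f) (hg : PT g) : PT (fun x => f x / g x) :=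
  (divMod hf hg).fst

@[fun_prop] theorem mod {f g : α → ℕ} (hf : PT f) (hg : PT g) : PT (fun x => f x % g x) :=
  (divMod hf hg).snd

@[fun_prop] theorem length {l : α → List β} (hl : PT l) : PT (fun x => (l x).length) := by
  refine (foldr_add (f := fun _ _ (s : ℕ) => s + 1) (by fun_prop) hl (const 0) (fun _ => 2)
    (by fun_prop) fun x b a _ => ?_).of_eq fun x => ?_
  · have h3 := size_add_le b 1
    have h4 : size (1 : ℕ) ≤ 1 := size_nat_le_self 1
    omega
  · induction l x with
    | nil => rfl
    | cons a t ih => simp [← ih]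

@[fun_prop] theorem size' {f : α → β} (hf : PT f) : PT (fun x => size (f x)) := hf.enc'.length

@[fun_prop] theorem sum {l : α → List ℕ} (hl : PT l) : PT (fun x => (l x).sum) :=
  (foldr_add' (f := fun _ a (s : ℕ) => a + s) (by fun_prop) hl (const 0) (fun p => size p.2 + 1)
    (by fun_prop) fun x a b => by have := size_add_le a b; simp only; omega).of_eq
    fun x => List.sum_eq_foldr

@[fun_prop] theorem prod {l : α → List ℕ} (hl : PT l) : PT (fun x => (l x).prod) :=
  (foldr_add' (f := fun _ a (s : ℕ) => a * s) (by fun_prop) hl (const 1) (fun p => size p.2)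
    (by fun_prop) fun x a b => by have := size_mul_le a b; simp only; omega).of_eq
    fun x => List.prod_eq_foldr

theorem range_length {l : α → List β} (hl : PT l) : PT (fun x => List.range (l x).length) := by
  refine (foldr (f := fun _ _ (s : List ℕ) => s ++ [s.length]) (by fun_prop) hl (const [])
    (fun x => (l x).length * (2 * (l x).length + 1)) (by fun_prop) fun x i => ?_).of_eq
    fun x => ?_
  · have key : ∀ m : List β, m.foldr (fun _ (s : List ℕ) => s ++ [s.length]) [] =
        List.range m.length := by
      intro m
      induction m with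
      | nil => rfl
      | cons a t ih => simp [ih, List.range_succ]
    rw [key]
    refine (size_list_le _ (l x).length fun a ha => ?_).trans ?_
    · refine (size_nat_le_self a).trans ?_
      simp at ha; omega
    · exact Nat.mul_le_mul_right _ (by simp)
  · induction l x with
    | nil => rfl
    | cons a t ih => simp [← ih, List.range_succ]

/-- The numbers below a polynomially bounded number. -/
@[fun_prop] theorem range {n : α → ℕ} (hn : PT n) (hb : PB n) :
    PT (fun x => List.range (n x)) := by
  obtain ⟨u, hu, h⟩ := exists_unary hb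
  refine (filter (f := fun x i => decide (i < n x)) (decideLt (by fun_prop) (by fun_prop))
    (range_length hu)).of_eq fun x => ?_
  obtain ⟨k, hk⟩ := Nat.exists_eq_add_of_le (h x)
  rw [hk, List.range_add, List.filter_append]
  rw [List.filter_eq_self.2 (by simp), List.filter_eq_nil_iff.2 (by simp), List.append_nil]

@[fun_prop] theorem replicate {n : α → ℕ} {a : α → β} (hn : PT n) (hb : PB n) (ha : PT a) :
    PT (fun x => List.replicate (n x) (a x)) :=
  (map (f := fun x _ => a x) (by fun_prop) (range hn hb)).of_eq fun x => by simp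

@[fun_prop] theorem max {f g : α → ℕ} (hf : PT f) (hg : PT g) : PT (fun x => max (f x) (g x)) :=
  (cond (decideLt hf hg) hg hf).of_eq fun x => by
    by_cases h : f x < g x <;> simp [h] <;> omega

@[fun_prop] theorem min {f g : α → ℕ} (hf : PT f) (hg : PT g) : PT (fun x => min (f x) (g x)) :=
  (cond (decideLt hf hg) hf hg).of_eq fun x => by
    by_cases h : f x < g x <;> simp [h] <;> omega

@[fun_prop] theorem drop {n : α → ℕ} {l : α → List β} (hn : PT n) (hl : PT l) :
    PT (fun x => (l x).drop (n x)) :=
  (drop_length hl (range (min hn hl.length) (by fun_prop))).of_eq fun x => by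
    simp only [List.length_range]
    rcases le_total (n x) (l x).length with h | h
    · rw [min_eq_left h]
    · rw [min_eq_right h, List.drop_of_length_le h, List.drop_length]

@[fun_prop] theorem take {n : α → ℕ} {l : α → List β} (hn : PT n) (hl : PT l) :
    PT (fun x => (l x).take (n x)) :=
  (take_length hl (range (min hn hl.length) (by fun_prop))).of_eq fun x => by simp

@[fun_prop] theorem getElem? {n : α → ℕ} {l : α → List β} (hl : PT l) (hn : PT n) :
    PT (fun x => (l x)[n x]?) :=
  (drop hn hl).head?.of_eq fun x => by simp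

@[fun_prop] theorem listGetD {n : α → ℕ} {l : α → List β} {d : α → β} (hl : PT l) (hn : PT n)
    (hd : PT d) : PT (fun x => (l x).getD (n x) (d x)) :=
  (getD (getElem? hl hn) hd).of_eq fun x => by simp

@[fun_prop] theorem set {n : α → ℕ} {l : α → List β} {d : α → β} (hl : PT l) (hn : PT n)
    (hd : PT d) : PT (fun x => (l x).set (n x) (d x)) :=
  (cond (decideLt hn hl.length) (append (take hn hl) (cons hd (drop hn.addOne hl))) hl).of_eq
    fun x => by
      rw [List.set_eq_take_append_cons_drop]
      by_cases h : n x < (l x).length <;> simp [h]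

@[fun_prop] theorem zipIdx {l : α → List β} (hl : PT l) : PT (fun x => (l x).zipIdx) :=
  (zip hl (range_length hl)).of_eq fun x => by
    rw [List.zipIdx_eq_zip_range', List.range_eq_range']

@[fun_prop] theorem countP {f : α → β → Bool} {l : α → List β}
    (hf : PT (fun p : α × β => f p.1 p.2)) (hl : PT l) : PT (fun x => (l x).countP (f x)) :=
  (filter hf hl).length.of_eq fun _ => List.countP_eq_length_filter

@[fun_prop] theorem findIdx {f : α → β → Bool} {l : α → List β}
    (hf : PT (fun p : α × β => f p.1 p.2)) (hl : PT l) : PT (fun x => (l x).findIdx (f x)) :=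
  (takeWhile (f := fun x a => !f x a) hf.not hl).length.of_eq fun x => by
    induction l x with
    | nil => rfl
    | cons a t ih => cases h : f x a <;> simp [List.findIdx_cons, h, ih]

@[fun_prop] theorem idxOf [BEq β] [LawfulBEq β] {a : α → β} {l : α → List β} (ha : PT a)
    (hl : PT l) : PT (fun x => (l x).idxOf (a x)) :=
  findIdx (f := fun x b => b == a x) (by fun_prop) hl

@[fun_prop] theorem count [BEq β] [LawfulBEq β] {a : α → β} {l : α → List β} (ha : PT a)
    (hl : PT l) : PT (fun x => (l x).count (a x)) :=
  countP (f := fun x b => b == a x) (by fun_prop) hl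

@[fun_prop] theorem contains [BEq β] [LawfulBEq β] {a : α → β} {l : α → List β} (hl : PT l)
    (ha : PT a) : PT (fun x => (l x).contains (a x)) :=
  (any (f := fun x b => a x == b) (by fun_prop) hl).of_eq fun _ =>
    List.contains_eq_any_beq

/-- Iterating a polynomially bounded number of times. -/
theorem iterate {f : α → γ → γ} {n : α → ℕ} {c : α → γ}
    (hf : PT (fun p : α × γ => f p.1 p.2)) (hn : PT n) (hb : PB n) (hc : PT c)
    (M : α → ℕ) (hM : PB M) (h : ∀ x i, i ≤ n x → size ((f x)^[i] (c x)) ≤ M x) :
    PT (fun x => (f x)^[n x] (c x)) := by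
  have key : ∀ x (m : List ℕ) (b : γ), m.foldl (fun s _ => f x s) b = (f x)^[m.length] b := by
    intro x m
    induction m with
    | nil => intro b; rfl
    | cons a t ih => intro b; simp [ih]
  refine (foldl (f := fun x s _ => f x s)
    (hf.comp' (f := fun p : α × γ × ℕ => (p.1, p.2.1)) (by fun_prop)) (range hn hb) hc M hM
    fun x i => ?_).of_eq fun x => by rw [key, List.length_range]
  rw [key]
  exact h x _ (by simp)

@[fun_prop] theorem pow {f n : α → ℕ} (hf : PT f) (hn : PT n) (hb : PB n) :
    PT (fun x => f x ^ n x) :=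
  (replicate hn hb hf).prod.of_eq fun x => by simp

@[fun_prop] theorem polyEval (p : Polynomial ℕ) {f : α → ℕ} (hf : PT f) :
    PT (fun x => p.eval (f x)) := by
  induction p using Polynomial.induction_on' with
  | add p q hp hq => exact (hp.add hq).of_eq fun x => by simp
  | monomial n a =>
    exact ((const a).mul (pow hf (const n) (PB.const n))).of_eq fun x => by simp

end PT

end Pool.Agent.Lib.Cx
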