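import Pool.Agent.Lib.Cx.Cmp

/-!
Typed layer: `PT f` (polynomial-time computable for the Prelude bit encodings) and
`PB t` (bounded by a polynomial in the size of the input), with closure lemmas for `fun_prop`.
-/

namespace Pool.Agent.Lib.Cx

open Function N487b59b3

/-- The Prelude class of bit encodings. -/
abbrev Enc (α : Type) : Type := N487b59b3 α

/-- The bit encoding. -/
def enc {α : Type} [Enc α] (a : α) : List Bool := bitEncode a

/-- The length of the bit encoding. -/
def size {α : Type} [Enc α] (a : α) : ℕ := (enc a).length

section encs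

variable {α β γ : Type}

theorem enc_injective [Enc α] : Injective (enc : α → List Bool) := bitEncode_injective

theorem enc_prod [Enc α] [Enc β] (p : α × β) : enc p = delimit (enc p.1) ++ enc p.2 := rfl

theorem enc_bool (b : Bool) : enc b = [b] := rfl

theorem enc_nil [Enc α] : enc ([] : List α) = [] := rfl

theorem enc_cons [Enc α] (a : α) (l : List α) : enc (a :: l) = delimit (enc a) ++ enc l := rfl

theorem enc_append [Enc α] (l m : List α) : enc (l ++ m) = enc l ++ enc m := by
  induction l with
  | nil => rfl
  | cons a l ih => simp [enc_cons, ih]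

theorem enc_listBool (l : List Bool) : enc l = l.flatMap (fun b => [true, b, false]) := by
  induction l with
  | nil => rfl
  | cons a l ih => rw [enc_cons, ih]; rfl

/-- An encoding from any injective map to words. -/
@[instance_reducible]
noncomputable def mkEnc (e : α → List Bool) (he : Injective e) : Enc α where
  encode := e
  decode l := by classical exact if h : ∃ a, e a = l then some h.choose else none
  decode_encode a := by
    have h : ∃ a', e a' = e a := ⟨a, rfl⟩
    rw [dif_pos h]
    exact congrArg some (he h.choose_spec)

instance encUnit : Enc Unit where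
  encode _ := []
  decode _ := some ()
  decode_encode _ := rfl

instance encOption [Enc α] : Enc (Option α) :=
  ofLeftInverse Option.toList (fun l => some l.head?) (fun o => by cases o <;> rfl)

noncomputable instance encSubtype [Enc α] (p : α → Prop) : Enc (Subtype p) :=
  mkEnc (fun a => enc a.1) (fun _ _ h => Subtype.ext (enc_injective h))

theorem enc_unit (u : Unit) : enc u = [] := rfl

theorem enc_option [Enc α] (o : Option α) : enc o = enc o.toList := rfl

theorem enc_subtype [Enc α] {p : α → Prop} (a : Subtype p) : enc a = enc a.1 := rfl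

@[simp] theorem size_prod [Enc α] [Enc β] (p : α × β) : size p = 2 * size p.1 + 1 + size p.2 := by
  simp [size, enc_prod]

@[simp] theorem size_bool (b : Bool) : size b = 1 := rfl

@[simp] theorem size_unit (b : Unit) : size b = 0 := rfl

@[simp] theorem size_nil [Enc α] : size ([] : List α) = 0 := rfl

@[simp] theorem size_cons [Enc α] (a : α) (l : List α) :
    size (a :: l) = 2 * size a + 1 + size l := by
  simp [size, enc_cons]

@[simp] theorem size_append [Enc α] (l m : List α) : size (l ++ m) = size l + size m := by
  simp [size, enc_append]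

@[simp] theorem size_reverse [Enc α] (l : List α) : size l.reverse = size l := by
  induction l with
  | nil => rfl
  | cons a l ih => simp [ih]; omega

@[simp] theorem size_none [Enc α] : size (none : Option α) = 0 := rfl

@[simp] theorem size_some [Enc α] (a : α) : size (some a) = 2 * size a + 1 := by
  simp [size, enc_option, enc_cons, enc_nil]

@[simp] theorem size_subtype [Enc α] {p : α → Prop} (a : Subtype p) : size a = size a.1 := rfl

theorem length_le_size [Enc α] (l : List α) : l.length ≤ size l := by
  induction l with
  | nil => simp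
  | cons a l ih => simp; omega

theorem size_le_of_mem [Enc α] {l : List α} {a : α} (h : a ∈ l) : size a ≤ size l := by
  induction l with
  | nil => simp at h
  | cons b l ih =>
    rcases List.mem_cons.1 h with rfl | h
    · simp; omega
    · have := ih h; simp; omega

theorem size_sublist [Enc α] {l m : List α} (h : l.Sublist m) : size l ≤ size m := by
  induction h with
  | slnil => exact le_rfl
  | cons a _ ih => simp; omega
  | cons_cons a _ ih => simp; omega

theorem size_tail_le [Enc α] (l : List α) : size l.tail ≤ size l :=
  size_sublist (List.tail_sublist l)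

theorem size_list_le [Enc α] (l : List α) (M : ℕ) (h : ∀ a ∈ l, size a ≤ M) :
    size l ≤ l.length * (2 * M + 1) := by
  induction l with
  | nil => simp
  | cons a l ih =>
    have h1 := h a (by simp)
    have h2 := ih (fun b hb => h b (by simp [hb]))
    simp only [size_cons, List.length_cons]
    nlinarith

theorem size_listBool (l : List Bool) : size l = 3 * l.length := by
  induction l with
  | nil => rfl
  | cons a l ih => simp [ih]; omega

theorem size_listUnit (l : List Unit) : size l = l.length := by
  induction l with
  | nil => rfl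
  | cons a l ih => simp [ih]; omega

end encs

/-- Polynomial-time computable. -/
@[fun_prop]
def PT {α β : Type} [Enc α] [Enc β] (f : α → β) : Prop := Cmp (enc : α → _) (fun a => enc (f a))

/-- Bounded by a polynomial in the size of the input. -/
@[fun_prop]
def PB {α : Type} [Enc α] (t : α → ℕ) : Prop := PolyB (size : α → ℕ) t

variable {α β γ δ : Type} [Enc α] [Enc β] [Enc γ] [Enc δ]

theorem PT.isPolyTime {f : α → β} (h : PT f) : N68a2faeb.IsPolyTime f := Cmp.toTM2 h

namespace PT

@[fun_prop] theorem id' : PT (fun x : α => x) := Cmp.refl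

@[fun_prop] theorem const (b : β) : PT (fun _ : α => b) := Cmp.const _

@[fun_prop] theorem comp' {g : β → γ} {f : α → β} (hg : PT g) (hf : PT f) :
    PT (fun x => g (f x)) := Cmp.trans hf (Cmp.reindex hg f)

theorem comp {g : β → γ} {f : α → β} (hg : PT g) (hf : PT f) : PT (g ∘ f) :=
  comp' (g := g) (f := f) hg hf

theorem of_eq {f g : α → β} (h : PT f) (e : ∀ x, g x = f x) : PT g := by
  rw [show g = f from funext e]; exact h

@[fun_prop] theorem prodMk {f : α → β} {g : α → γ} (hf : PT f) (hg : PT g) :
    PT (fun x => (f x, g x)) := Cmp.pair hf hg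

@[fun_prop] theorem fst {f : α → β × γ} (hf : PT f) : PT (fun x => (f x).1) :=
  Cmp.trans hf (Cmp.fst.reindex (fun x => (enc (f x).1, enc (f x).2)))

@[fun_prop] theorem snd {f : α → β × γ} (hf : PT f) : PT (fun x => (f x).2) :=
  Cmp.trans hf (Cmp.snd.reindex (fun x => (enc (f x).1, enc (f x).2)))

@[fun_prop] theorem val {p : β → Prop} {f : α → Subtype p} (hf : PT f) :
    PT (fun x => (f x).1) := hf

@[fun_prop] theorem subtypeMk {p : β → Prop} {f : α → β} (hf : PT f) (h : ∀ x, p (f x)) :
    PT (fun x => (⟨f x, h x⟩ : Subtype p)) := hf

theorem restrict {f : α → β} (hf : PT f) (p : α → Prop) : PT (fun x : Subtype p => f x.1) :=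
  Cmp.reindex hf _

/-- Case split on a polynomial-time test. -/
theorem split {c : α → Bool} {f : α → β} (hc : PT c)
    (h : ∀ b, PT (fun x : {x // c x = b} => f x.1)) : PT f := by
  have h1 : Cmp (enc : α → _) (fun a => c a :: false :: enc a) := (Cmp.pair hc Cmp.refl).tail
  refine h1.trans (Cmp.case fun o => ?_)
  rcases o with _ | b
  · refine ⟨Proc.skip, 0, fun a => ?_⟩
    exact absurd a.2 (by simp)
  · have h2 := (h b).reindex (fun a : {a // (c a :: false :: enc a).head? = some b} =>
      ⟨a.1, by simpa using a.2⟩)
    exact (Cmp.refl.tail).trans h2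

@[fun_prop] theorem cond {c : α → Bool} {f g : α → β} (hc : PT c) (hf : PT f) (hg : PT g) :
    PT (fun x => bif c x then f x else g x) := by
  refine split hc fun b => ?_
  cases b
  · exact (hg.restrict _).of_eq (fun x => by rw [x.2]; rfl)
  · exact (hf.restrict _).of_eq (fun x => by rw [x.2]; rfl)

@[fun_prop] theorem not {c : α → Bool} (hc : PT c) : PT (fun x => !c x) :=
  (cond hc (const false) (const true)).of_eq (fun x => by cases c x <;> rfl)

@[fun_prop] theorem and {c d : α → Bool} (hc : PT c) (hd : PT d) : PT (fun x => c x && d x) :=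
  (cond hc hd (const false)).of_eq (fun x => by cases c x <;> rfl)

@[fun_prop] theorem or {c d : α → Bool} (hc : PT c) (hd : PT d) : PT (fun x => c x || d x) :=
  (cond hc (const true) hd).of_eq (fun x => by cases c x <;> rfl)

@[fun_prop] theorem xor {c d : α → Bool} (hc : PT c) (hd : PT d) :
    PT (fun x => xor (c x) (d x)) :=
  (cond hc hd.not hd).of_eq (fun x => by cases c x <;> cases d x <;> rfl)

@[fun_prop] theorem cons {f : α → β} {l : α → List β} (hf : PT f) (hl : PT l) :
    PT (fun x => f x :: l x) := Cmp.pair hf hl

@[fun_prop] theorem enc' {f : α → β} (hf : PT f) : PT (fun x => enc (f x)) :=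
  (Cmp.flatMap hf _).congr (fun _ => rfl) (fun _ => enc_listBool _)

theorem enc_eq_nil_iff (l : List β) : enc l = [] ↔ l = [] := by
  cases l with
  | nil => simp [enc_nil]
  | cons a l =>
    simp only [enc_cons, List.append_eq_nil_iff, reduceCtorEq, iff_false, not_and]
    intro h
    have := congrArg List.length h
    simp at this

@[fun_prop] theorem isEmpty {l : α → List β} (hl : PT l) : PT (fun x => (l x).isEmpty) := by
  refine Cmp.trans hl (Cmp.case fun o => ?_)
  rcases o with _ | b
  · refine (Cmp.const [true]).congr (fun _ => rfl) fun a => ?_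
    have := (enc_eq_nil_iff _).1 (List.head?_eq_none_iff.1 a.2)
    simp only [this]; rfl
  · refine (Cmp.const [false]).congr (fun _ => rfl) fun a => ?_
    have h := a.2
    cases hl : l a.1 with
    | nil => rw [hl] at h; simp [enc_nil] at h
    | cons => simp only [hl]; rfl

/-- Case analysis on a list. -/
theorem listCases {l : α → List β} {g : α → γ} {h : α → β → List β → γ} (hl : PT l) (hg : PT g)
    (hh : PT (fun p : α × β × List β => h p.1 p.2.1 p.2.2)) :
    PT (fun x => List.casesOn (motive := fun _ => γ) (l x) (g x) (h x)) := by
  refine split hl.isEmpty fun b => ?_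
  cases b
  · have h1 : PT (fun x : {x // (l x).isEmpty = false} =>
        ((l x.1).head (by have := x.2; intro h; simp [h] at this), (l x.1).tail)) := by
      refine (hl.restrict _).congr (fun _ => rfl) fun x => ?_
      rw [enc_prod, ← enc_cons, List.cons_head_tail]
    refine (hh.comp' (prodMk (id'.restrict _) h1)).of_eq fun x => ?_
    obtain ⟨x, hx⟩ := x
    simp only
    generalize_proofs hne
    revert hne
    cases l x with
    | nil => intro h; exact absurd rfl h
    | cons a t => intro _; rfl
  · refine (hg.restrict _).of_eq fun x => ?_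
    rw [List.isEmpty_iff.1 x.2]

@[fun_prop] theorem tail {l : α → List β} (hl : PT l) : PT (fun x => (l x).tail) :=
  (listCases (h := fun _ _ t => t) hl (const []) (by fun_prop)).of_eq
    (fun x => by cases l x <;> rfl)

@[fun_prop] theorem some' {f : α → β} (hf : PT f) : PT (fun x => some (f x)) :=
  cons hf (const [])

@[fun_prop] theorem toList {f : α → Option β} (hf : PT f) : PT (fun x => (f x).toList) := hf

@[fun_prop] theorem head? {l : α → List β} (hl : PT l) : PT (fun x => (l x).head?) :=
  (listCases (h := fun _ a _ => some a) hl (const none) (by fun_prop)).of_eq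
    (fun x => by cases l x <;> rfl)

@[fun_prop] theorem headD {l : α → List β} {d : α → β} (hl : PT l) (hd : PT d) :
    PT (fun x => (l x).headD (d x)) :=
  (listCases (h := fun _ a _ => a) hl hd (by fun_prop)).of_eq (fun x => by cases l x <;> rfl)

@[fun_prop] theorem optionElim {o : α → Option β} {g : α → γ} {h : α → β → γ} (ho : PT o)
    (hg : PT g) (hh : PT (fun p : α × β => h p.1 p.2)) :
    PT (fun x => (o x).elim (g x) (h x)) :=
  (listCases (h := fun x a _ => h x a) ho.toList hg
    (hh.comp' (f := fun p : α × β × List β => (p.1, p.2.1)) (by fun_prop))).of_eq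
    (fun x => by cases o x <;> rfl)

@[fun_prop] theorem getD {o : α → Option β} {d : α → β} (ho : PT o) (hd : PT d) :
    PT (fun x => (o x).getD (d x)) :=
  (optionElim (h := fun _ a => a) ho hd (by fun_prop)).of_eq (fun x => by cases o x <;> rfl)

@[fun_prop] theorem isSome {o : α → Option β} (ho : PT o) : PT (fun x => (o x).isSome) :=
  (optionElim (h := fun _ _ => true) ho (const false) (by fun_prop)).of_eq
    (fun x => by cases o x <;> rfl)

@[fun_prop] theorem isNone {o : α → Option β} (ho : PT o) : PT (fun x => (o x).isNone) :=
  (optionElim (h := fun _ _ => false) ho (const true) (by fun_prop)).of_eq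
    (fun x => by cases o x <;> rfl)

@[fun_prop] theorem optionMap {o : α → Option β} {h : α → β → γ} (ho : PT o)
    (hh : PT (fun p : α × β => h p.1 p.2)) : PT (fun x => (o x).map (h x)) :=
  (optionElim (h := fun x a => some (h x a)) ho (const none) hh.some').of_eq
    (fun x => by cases o x <;> rfl)

@[fun_prop] theorem optionBind {o : α → Option β} {h : α → β → Option γ} (ho : PT o)
    (hh : PT (fun p : α × β => h p.1 p.2)) : PT (fun x => (o x).bind (h x)) :=
  (optionElim ho (const none) hh).of_eq (fun x => by cases o x <;> rfl)

end PT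

namespace PB

variable {s t : α → ℕ}

@[fun_prop] theorem const (c : ℕ) : PB (fun _ : α => c) := PolyB.const c

@[fun_prop] theorem size' {f : α → β} (hf : PT f) : PB (fun x => size (f x)) := Cmp.polyB hf

@[fun_prop] theorem add (h1 : PB s) (h2 : PB t) : PB (fun x => s x + t x) := PolyB.add h1 h2

@[fun_prop] theorem mul (h1 : PB s) (h2 : PB t) : PB (fun x => s x * t x) := PolyB.mul h1 h2

@[fun_prop] theorem pow (h1 : PB s) (k : ℕ) : PB (fun x => s x ^ k) := PolyB.pow h1 k

theorem mono (h1 : PB s) (h : ∀ x, t x ≤ s x) : PB t := PolyB.mono h1 h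

@[fun_prop] theorem eval (h1 : PB s) (q : Polynomial ℕ) : PB (fun x => q.eval (s x)) :=
  PolyB.eval h1 q

theorem comp {t : β → ℕ} {f : α → β} (ht : PB t) (hf : PT f) : PB (fun x => t (f x)) :=
  PolyB.trans (size' hf) (PolyB.reindex ht f)

@[fun_prop] theorem length {l : α → List β} (hl : PT l) : PB (fun x => (l x).length) :=
  (size' hl).mono (fun _ => length_le_size _)

@[fun_prop] theorem sub (h1 : PB s) : PB (fun x => s x - t x) := h1.mono (fun _ => Nat.sub_le _ _)

@[fun_prop] theorem succ (h1 : PB s) : PB (fun x => (s x).succ) := h1.add (const 1)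

@[fun_prop] theorem max (h1 : PB s) (h2 : PB t) : PB (fun x => max (s x) (t x)) :=
  (h1.add h2).mono (fun _ => by omega)

theorem min_left (h1 : PB s) : PB (fun x => min (s x) (t x)) := h1.mono (fun _ => by omega)

@[fun_prop] theorem min_right (h1 : PB s) : PB (fun x => min (t x) (s x)) :=
  h1.mono (fun _ => by omega)

@[fun_prop] theorem div (h1 : PB s) : PB (fun x => s x / t x) :=
  h1.mono (fun _ => Nat.div_le_self _ _)

@[fun_prop] theorem ite {c : α → Prop} [∀ x, Decidable (c x)] (h1 : PB s) (h2 : PB t) :
    PB (fun x => if c x then s x else t x) :=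
  (h1.add h2).mono (fun _ => by split_ifs <;> omega)

/-- A bound for a function of two arguments, uniform over second arguments of bounded size. -/
theorem uniform {t : α × β → ℕ} (ht : PB t) {M : α → ℕ} (hM : PB M) :
    ∃ N : α → ℕ, PB N ∧ ∀ x y, size y ≤ M x → t (x, y) ≤ N x := by
  obtain ⟨p, hp⟩ := ht
  refine ⟨fun x => p.eval (2 * size x + 1 + M x), by fun_prop, fun x y h => ?_⟩
  exact (hp _).trans (eval_mono _ (by simp; omega))

end PB

end Pool.Agent.Lib.Cx
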