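import Pool.Agent.Lib.Cx.Nat

/-!
Polynomial-time decidable predicates `PP p`, so that `if`, `decide` and bounded quantifiers
can be handled by `fun_prop`.
-/

namespace Pool.Agent.Lib.Cx

open Function N487b59b3

variable {α β γ δ : Type} [Enc α] [Enc β] [Enc γ] [Enc δ]

open Classical in
/-- Polynomial-time decidable. -/
@[fun_prop]
def PP {α : Type} [Enc α] (p : α → Prop) : Prop := PT (fun x => decide (p x))

@[fun_prop] theorem PT.decide {p : α → Prop} {inst : ∀ x, Decidable (p x)} (h : PP p) :
    PT (fun x => @decide (p x) (inst x)) :=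
  PT.of_eq h (fun x => by congr)

@[fun_prop] theorem PT.ite {p : α → Prop} {inst : ∀ x, Decidable (p x)} {f g : α → β} (h : PP p)
    (hf : PT f) (hg : PT g) : PT (fun x => @ite β (p x) (inst x) (f x) (g x)) :=
  (PT.cond (PT.decide (inst := inst) h) hf hg).of_eq fun x => by
    by_cases hx : p x <;> simp [hx]

namespace PP

variable {p q : α → Prop}

theorem pt (hp : PP p) : PT (fun x => @decide (p x) (Classical.propDecidable _)) := hp

theorem of_bool {c : α → Bool} (hc : PT c) (h : ∀ x, p x ↔ c x = true) : PP p :=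
  hc.of_eq fun x => by
    cases hx : c x
    · simp [h, hx]
    · simp [h, hx]

theorem of_iff (hp : PP p) (h : ∀ x, q x ↔ p x) : PP q := by
  rw [show q = p from funext fun x => propext (h x)]; exact hp

@[fun_prop] theorem const (c : Prop) : PP (fun _ : α => c) := PT.const _

@[fun_prop] theorem comp' {p : β → Prop} {f : α → β} (hp : PP p) (hf : PT f) :
    PP (fun x => p (f x)) := hp.pt.comp' hf

@[fun_prop] theorem eq {f g : α → β} (hf : PT f) (hg : PT g) : PP (fun x => f x = g x) := by
  classical
  exact of_bool (PT.decideEq hf hg) (by simp)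

@[fun_prop] theorem not (hp : PP p) : PP (fun x => ¬ p x) :=
  of_bool hp.pt.not (by simp)

@[fun_prop] theorem ne {f g : α → β} (hf : PT f) (hg : PT g) : PP (fun x => f x ≠ g x) :=
  (eq hf hg).not

@[fun_prop] theorem and (hp : PP p) (hq : PP q) : PP (fun x => p x ∧ q x) :=
  of_bool (hp.pt.and hq.pt) (by simp)

@[fun_prop] theorem or (hp : PP p) (hq : PP q) : PP (fun x => p x ∨ q x) :=
  of_bool (hp.pt.or hq.pt) (by simp)

@[fun_prop] theorem imp (hp : PP p) (hq : PP q) : PP (fun x => p x → q x) :=
  (hp.not.or hq).of_iff fun x => by tauto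

@[fun_prop] theorem iff (hp : PP p) (hq : PP q) : PP (fun x => p x ↔ q x) :=
  ((hp.imp hq).and (hq.imp hp)).of_iff fun x => by tauto

@[fun_prop] theorem lt {f g : α → ℕ} (hf : PT f) (hg : PT g) : PP (fun x => f x < g x) :=
  of_bool (PT.decideLt hf hg) (by simp)

@[fun_prop] theorem le {f g : α → ℕ} (hf : PT f) (hg : PT g) : PP (fun x => f x ≤ g x) :=
  (lt hg hf).not.of_iff (by simp)

@[fun_prop] theorem gt {f g : α → ℕ} (hf : PT f) (hg : PT g) : PP (fun x => f x > g x) :=
  lt hg hf

@[fun_prop] theorem ge {f g : α → ℕ} (hf : PT f) (hg : PT g) : PP (fun x => f x ≥ g x) :=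
  le hg hf

@[fun_prop] theorem dvd {f g : α → ℕ} (hf : PT f) (hg : PT g) : PP (fun x => f x ∣ g x) :=
  (eq (hg.mod hf) (PT.const 0)).of_iff fun _ => Nat.dvd_iff_mod_eq_zero

@[fun_prop] theorem even {f : α → ℕ} (hf : PT f) : PP (fun x => Even (f x)) :=
  (eq (hf.mod (PT.const 2)) (PT.const 0)).of_iff fun _ => Nat.even_iff

@[fun_prop] theorem odd {f : α → ℕ} (hf : PT f) : PP (fun x => Odd (f x)) :=
  (eq (hf.mod (PT.const 2)) (PT.const 1)).of_iff fun _ => Nat.odd_iff

@[fun_prop] theorem forall_mem {l : α → List β} {p : α → β → Prop} (hl : PT l)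
    (hp : PP (fun z : α × β => p z.1 z.2)) : PP (fun x => ∀ y ∈ l x, p x y) := by
  classical
  exact of_bool (PT.all (f := fun x y => Decidable.decide (p x y)) (PT.decide hp) hl) (by simp)

@[fun_prop] theorem exists_mem {l : α → List β} {p : α → β → Prop} (hl : PT l)
    (hp : PP (fun z : α × β => p z.1 z.2)) : PP (fun x => ∃ y ∈ l x, p x y) := by
  classical
  exact of_bool (PT.any (f := fun x y => Decidable.decide (p x y)) (PT.decide hp) hl) (by simp)

@[fun_prop] theorem mem {l : α → List β} {a : α → β} (hl : PT l) (ha : PT a) :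
    PP (fun x => a x ∈ l x) :=
  (exists_mem (p := fun x y => y = a x) hl (by fun_prop)).of_iff (by simp)

@[fun_prop] theorem forall_lt {n : α → ℕ} {p : α → ℕ → Prop} (hn : PT n) (hb : PB n)
    (hp : PP (fun z : α × ℕ => p z.1 z.2)) : PP (fun x => ∀ y < n x, p x y) :=
  (forall_mem (PT.range hn hb) hp).of_iff (by simp)

@[fun_prop] theorem exists_lt {n : α → ℕ} {p : α → ℕ → Prop} (hn : PT n) (hb : PB n)
    (hp : PP (fun z : α × ℕ => p z.1 z.2)) : PP (fun x => ∃ y < n x, p x y) :=
  (exists_mem (PT.range hn hb) hp).of_iff (by simp)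

theorem forall_fin {ι : Type} [Finite ι] {p : ι → α → Prop} (hp : ∀ i, PP (p i)) :
    PP (fun x => ∀ i, p i x) := by
  classical
  have hF := Fintype.ofFinite ι
  have : ∀ s : Finset ι, PP (fun x => ∀ i ∈ s, p i x) := by
    intro s
    induction s using Finset.induction_on with
    | empty => exact (const True).of_iff (by simp)
    | insert b s _ ih => exact ((hp b).and ih).of_iff (by simp)
  exact (this Finset.univ).of_iff (by simp)

theorem exists_fin {ι : Type} [Finite ι] {p : ι → α → Prop} (hp : ∀ i, PP (p i)) :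
    PP (fun x => ∃ i, p i x) :=
  (forall_fin (fun i => (hp i).not)).not.of_iff (by simp)

@[fun_prop] theorem subset {l m : α → List β} (hl : PT l) (hm : PT m) :
    PP (fun x => l x ⊆ m x) :=
  (forall_mem (p := fun x y => y ∈ m x) hl (by fun_prop)).of_iff fun _ => List.subset_def

@[fun_prop] theorem pairwise {l : α → List β} {r : α → β → β → Prop} (hl : PT l)
    (hr : PP (fun z : α × β × β => r z.1 z.2.1 z.2.2)) : PP (fun x => (l x).Pairwise (r x)) := by
  have h1 : PP (fun x => ∀ i < (l x).length, ∀ a ∈ ((l x)[i]?).toList,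
      ∀ b ∈ (l x).drop (i + 1), r x a b) := by
    refine forall_lt (by fun_prop) (by fun_prop) (forall_mem (by fun_prop)
      (forall_mem (by fun_prop) ?_))
    exact hr.comp' (f := fun z : ((α × ℕ) × β) × β => (z.1.1.1, z.1.2, z.2)) (by fun_prop)
  refine h1.of_iff fun x => ?_
  induction l x with
  | nil => simp
  | cons a t ih =>
    rw [List.pairwise_cons, ih]
    constructor
    · rintro ⟨h1, h2⟩ i hi
      cases i with
      | zero => simpa using h1
      | succ i => simpa using h2 i (by simpa using hi)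
    · intro h
      refine ⟨by simpa using h 0 (by simp), fun i hi => ?_⟩
      simpa using h (i + 1) (by simpa using hi)

@[fun_prop] theorem nodup {l : α → List β} (hl : PT l) : PP (fun x => (l x).Nodup) :=
  pairwise (r := fun _ a b => a ≠ b) hl (by fun_prop)

end PP

namespace PT

@[fun_prop] theorem dedup [DecidableEq β] {l : α → List β} (hl : PT l) :
    PT (fun x => (l x).dedup) := by
  refine (foldr_add' (f := fun _ a (acc : List β) => if a ∈ acc then acc else a :: acc)
    (by fun_prop) hl (const []) (fun p => 2 * size p.2 + 1) (by fun_prop)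
    (fun x a b => by split_ifs <;> simp; omega)).of_eq fun x => ?_
  induction l x with
  | nil => rfl
  | cons a t ih =>
    rw [List.foldr_cons, ← ih, List.dedup_cons]
    simp

@[fun_prop] theorem erase [BEq β] [LawfulBEq β] {l : α → List β} {a : α → β} (hl : PT l)
    (ha : PT a) : PT (fun x => (l x).erase (a x)) :=
  (append (take (idxOf ha hl) hl) (drop (idxOf ha hl).addOne hl)).of_eq fun x => by
    rw [List.erase_eq_eraseIdx_of_idxOf rfl, List.eraseIdx_eq_take_drop_succ]

@[fun_prop] theorem foldrMax {l : α → List ℕ} {c : α → ℕ} (hl : PT l) (hc : PT c) :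
    PT (fun x => (l x).foldr Max.max (c x)) :=
  foldr_add' (f := fun _ a (s : ℕ) => Max.max a s) (by fun_prop) hl hc (fun p => size p.2)
    (by fun_prop) fun x a b => by
      rcases le_total a b with h | h <;> simp [h]

@[fun_prop] theorem foldrMin {l : α → List ℕ} {c : α → ℕ} (hl : PT l) (hc : PT c) :
    PT (fun x => (l x).foldr Min.min (c x)) :=
  foldr_add' (f := fun _ a (s : ℕ) => Min.min a s) (by fun_prop) hl hc (fun p => size p.2)
    (by fun_prop) fun x a b => by
      rcases le_total a b with h | h <;> simp [h]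

end PT

end Pool.Agent.Lib.Cx
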