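import Pool.Agent.Lib.Cx.Machine

/-!
Procedures: blocks with visible registers `R` and hidden local registers that start and end empty.
-/

namespace Pool.Agent.Lib.Cx

open Function

structure Proc (R : Type) : Type 1 where
  L : Type
  [dec : DecidableEq L]
  [fin : Fintype L]
  B : Block (R ⊕ L)

attribute [instance] Proc.dec Proc.fin

/-- Extend a visible state by empty locals. -/
def ext0 {R : Type} (L : Type) (S : St R) : St (R ⊕ L) := Sum.elim S (fun _ => [])

@[simp] theorem ext0_inl {R L : Type} (S : St R) (r : R) : ext0 L S (Sum.inl r) = S r := rfl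
@[simp] theorem ext0_inr {R L : Type} (S : St R) (l : L) : ext0 L S (Sum.inr l) = [] := rfl

theorem update_ext0 {R L : Type} [DecidableEq R] [DecidableEq L] (S : St R) (r : R)
    (x : List Bool) : update (ext0 L S) (Sum.inl r) x = ext0 L (update S r x) := by
  funext k
  rcases k with k | k
  · by_cases h : k = r
    · subst h; simp
    · rw [update_of_ne (by simpa using h)]; simp [update_of_ne h]
  · rw [update_of_ne (by simp)]; simp

namespace Proc

variable {R R' : Type}

def Runs [DecidableEq R] (P : Proc R) (S S' : St R) (t : ℕ) : Prop :=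
  P.B.Runs (ext0 P.L S) (ext0 P.L S') t

def skip : Proc R := { L := Empty, B := Block.skip }

def push (k : R) (b : Bool) : Proc R := { L := Empty, B := Block.push (Sum.inl k) b }

def seq (P Q : Proc R) : Proc R where
  L := P.L ⊕ Q.L
  B := Block.seq (P.B.ren (Sum.map id Sum.inl)) (Q.B.ren (Sum.map id Sum.inr))

def case (k : R) (P : Option Bool → Proc R) : Proc R where
  L := Σ o, (P o).L
  B := Block.case (Sum.inl k) (fun o => (P o).B.ren (Sum.map id (Sigma.mk o)))

def loop (k : R) (P : Bool → Proc R) : Proc R where
  L := Σ o, (P o).L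
  B := Block.loop (Sum.inl k) (fun o => (P o).B.ren (Sum.map id (Sigma.mk o)))

def ren (e : R → R') (P : Proc R) : Proc R' where
  L := P.L
  B := P.B.ren (Sum.map e id)

/-- Make every register except `r` local. -/
def hide [DecidableEq R] [Fintype R] (r : R) (P : Proc R) : Proc Unit where
  L := R ⊕ P.L
  B := P.B.ren (fun x => if x = Sum.inl r then Sum.inl () else Sum.inr x)

variable [DecidableEq R] [DecidableEq R']

theorem Runs.mono {P : Proc R} {S S' : St R} {t t' : ℕ} (h : P.Runs S S' t) (ht : t ≤ t') :
    P.Runs S S' t' := Block.Runs.mono h ht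

theorem Runs.congr {P : Proc R} {S S' T T' : St R} {t t' : ℕ} (h : P.Runs S S' t) (h1 : T = S)
    (h2 : T' = S') (ht : t ≤ t') : P.Runs T T' t' := by
  subst h1 h2; exact h.mono ht

theorem Runs.length_le {P : Proc R} {S S' : St R} {t : ℕ} (h : P.Runs S S' t) (k : R) :
    (S' k).length ≤ (S k).length + t := Block.Runs.length_le h (Sum.inl k)

theorem Runs.widen {P : Proc R} {S S' : St R} {t : ℕ} (h : P.Runs S S' t) {L' : Type}
    [DecidableEq L'] (f : P.L → L') (hf : Injective f) :
    (P.B.ren (Sum.map id f)).Runs (ext0 L' S) (ext0 L' S') t := by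
  refine Block.Runs.ren h _ (Sum.map_injective.2 ⟨injective_id, hf⟩) _ _ ?_ ?_ ?_
  · rintro (k | k) <;> rfl
  · rintro (k | k) <;> rfl
  · rintro (k | k) hk
    · exact absurd rfl (hk (Sum.inl k))
    · rfl

theorem runs_skip (S : St R) : (skip : Proc R).Runs S S 0 := Block.runs_skip _

theorem runs_push (k : R) (b : Bool) (S : St R) :
    (push k b).Runs S (update S k (b :: S k)) 1 := by
  have := Block.runs_push (Sum.inl k : R ⊕ Empty) b (ext0 Empty S)
  rwa [update_ext0] at this

theorem Runs.seq {P Q : Proc R} {S1 S2 S3 : St R} {t1 t2 : ℕ} (h1 : P.Runs S1 S2 t1)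
    (h2 : Q.Runs S2 S3 t2) : (seq P Q).Runs S1 S3 (t1 + t2) :=
  Block.Runs.seq (h1.widen Sum.inl Sum.inl_injective) (h2.widen Sum.inr Sum.inr_injective)

theorem Runs.case {k : R} {P : Option Bool → Proc R} {S S' : St R} {t : ℕ}
    (h : (P (S k).head?).Runs (update S k (S k).tail) S' t) : (case k P).Runs S S' (t + 1) := by
  have := h.widen (L' := Σ o, (P o).L) (Sigma.mk (β := fun o => (P o).L) (S k).head?)
    (sigma_mk_injective (β := fun o => (P o).L))
  rw [← update_ext0] at this
  exact Block.Runs.case (K := R ⊕ Σ o, (P o).L) (k := Sum.inl k) (S := ext0 _ S)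
    (B := fun o => (P o).B.ren (Sum.map id (Sigma.mk o))) this

theorem runs_loop_nil {k : R} {P : Bool → Proc R} {S : St R} (h : S k = []) :
    (loop k P).Runs S S 1 := Block.runs_loop_nil (K := R ⊕ Σ o, (P o).L) h

theorem Runs.loop_cons {k : R} {P : Bool → Proc R} {S S1 S2 : St R} {b : Bool} {r : List Bool}
    {t1 t2 : ℕ} (h : S k = b :: r) (h1 : (P b).Runs (update S k r) S1 t1)
    (h2 : (loop k P).Runs S1 S2 t2) : (loop k P).Runs S S2 (t1 + t2 + 1) := by
  have := h1.widen (L' := Σ o, (P o).L) (Sigma.mk (β := fun o => (P o).L) b)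
    (sigma_mk_injective (β := fun o => (P o).L))
  rw [← update_ext0] at this
  exact Block.Runs.loop_cons (K := R ⊕ Σ o, (P o).L) (k := Sum.inl k) (S := ext0 _ S)
    (B := fun o => (P o).B.ren (Sum.map id (Sigma.mk o))) h this h2

theorem Runs.ren {P : Proc R} {S S' : St R} {t : ℕ} (h : P.Runs S S' t) (e : R → R')
    (he : Injective e) (T T' : St R') (hT : ∀ k, T (e k) = S k) (hT' : ∀ k, T' (e k) = S' k)
    (hfr : ∀ k', (∀ k, e k ≠ k') → T' k' = T k') : (ren e P).Runs T T' t := by
  refine Block.Runs.ren h _ (Sum.map_injective.2 ⟨he, injective_id⟩) _ _ ?_ ?_ ?_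
  · rintro (k | k)
    · exact hT k
    · rfl
  · rintro (k | k)
    · exact hT' k
    · rfl
  · rintro (k | k) hk
    · exact hfr k (fun j hj => hk (Sum.inl j) (by simp [hj]))
    · rfl

/-- Run a one-register procedure on register `r`. -/
def onReg (r : R) (P : Proc Unit) : Proc R := P.ren (fun _ => r)

theorem Runs.onReg {P : Proc Unit} {x y : List Bool} {t : ℕ}
    (h : P.Runs (fun _ => x) (fun _ => y) t) (r : R) (T : St R) (hT : T r = x) :
    (onReg r P).Runs T (update T r y) t := by
  refine h.ren _ (fun _ _ _ => rfl) _ _ (fun _ => hT) (fun _ => by simp) ?_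
  intro k' hk'
  rw [update_of_ne (fun h => hk' () h.symm)]

theorem Runs.hide [Fintype R] {P : Proc R} {r : R} {x y : List Bool} {t : ℕ}
    (h : P.Runs (single r x) (single r y) t) :
    (hide r P).Runs (fun _ => x) (fun _ => y) t := by
  have key : ∀ (z : List Bool) (k : R ⊕ P.L),
      ext0 (R ⊕ P.L) (fun _ : Unit => z) (if k = Sum.inl r then Sum.inl () else Sum.inr k) =
        ext0 P.L (single r z) k := by
    intro z k
    by_cases hk : k = Sum.inl r
    · subst hk; simp
    · rw [if_neg hk]
      rcases k with k | k
      · simp only [ext0_inr, ext0_inl]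
        rw [single_of_ne (fun h => hk (by rw [h]))]
      · rfl
  refine Block.Runs.ren h _ ?_ _ _ (key x) (key y) ?_
  · intro a b hab
    simp only at hab
    split_ifs at hab with ha hb
    · rw [ha, hb]
    · exact Sum.inr_injective hab
  · rintro (k | k) hk
    · exact absurd (by rw [if_pos rfl]; rfl) (hk (Sum.inl r))
    · rfl

/-! ### Small programs -/

/-- Push a whole word. -/
def pushList (k : R) : List Bool → Proc R
  | [] => skip
  | b :: l => seq (pushList k l) (push k b)

theorem runs_pushList (k : R) (l : List Bool) (S : St R) :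
    (pushList k l).Runs S (update S k (l ++ S k)) l.length := by
  induction l with
  | nil => exact (runs_skip S).congr rfl (by simp) le_rfl
  | cons b l ih => exact (ih.seq (runs_push k b _)).congr rfl (by simp) (by simp)

/-- Empty `k`; for each popped bit `b` push the word `g b` on `j`. -/
def pour (k j : R) (g : Bool → List Bool) : Proc R := loop k (fun b => pushList j (g b))

theorem runs_pour {k j : R} (hkj : k ≠ j) (g : Bool → List Bool) (c : ℕ)
    (hc : ∀ b, (g b).length ≤ c) (S : St R) :
    (pour k j g).Runs S (update (update S k []) j ((S k).reverse.flatMap g ++ S j))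
      ((c + 1) * (S k).length + 1) := by
  generalize hx : S k = x
  induction x generalizing S with
  | nil =>
    refine (runs_loop_nil hx).congr rfl ?_ (by simp)
    funext r
    simp only [update_apply]
    split_ifs <;> simp_all
  | cons b x ih =>
    have h1 := runs_pushList j (g b) (update S k x)
    have h2 := ih (update (update S k x) j (g b ++ update S k x j))
      (by rw [update_of_ne hkj]; simp)
    refine (Runs.loop_cons hx h1 h2).congr rfl ?_ ?_
    · funext r
      clear ih h1 h2
      simp only [update_apply]
      split_ifs <;> simp_all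
    · have := hc b
      simp only [List.length_cons]
      nlinarith

/-- Move `k` onto `j`, reversing it. -/
def move (k j : R) : Proc R := pour k j (fun b => [b])

theorem runs_move {k j : R} (hkj : k ≠ j) (S : St R) :
    (move k j).Runs S (update (update S k []) j ((S k).reverse ++ S j))
      (2 * (S k).length + 1) := by
  have := runs_pour hkj (fun b => [b]) 1 (fun _ => le_rfl) S
  simpa [move] using this

/-- Empty `k`. -/
def clear (k : R) : Proc R := loop k (fun _ => skip)

theorem runs_clear (k : R) (S : St R) :
    (clear k).Runs S (update S k []) ((S k).length + 1) := by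
  generalize hx : S k = x
  induction x generalizing S with
  | nil => exact (runs_loop_nil hx).congr rfl (by rw [← hx]; simp) (by simp)
  | cons b x ih =>
    have h2 := ih (update S k x) (by simp)
    exact (Runs.loop_cons hx (runs_skip _) h2).congr rfl (by simp) (by simp)

/-- Move `k` onto both `i` and `j`, reversing it. -/
def move2 (k i j : R) : Proc R := loop k (fun b => seq (push i b) (push j b))

theorem runs_move2 {k i j : R} (hki : k ≠ i) (hkj : k ≠ j) (hij : i ≠ j) (S : St R) :
    (move2 k i j).Runs S
      (update (update (update S k []) i ((S k).reverse ++ S i)) j ((S k).reverse ++ S j))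
      (3 * (S k).length + 1) := by
  generalize hx : S k = x
  induction x generalizing S with
  | nil =>
    refine (runs_loop_nil hx).congr rfl ?_ (by simp)
    funext r
    simp only [update_apply]
    split_ifs <;> simp_all
  | cons b x ih =>
    have h1 := (runs_push i b (update S k x)).seq (runs_push j b _)
    have h2 := ih _ (show (update (update (update S k x) i (b :: update S k x i)) j
      (b :: update (update S k x) i (b :: update S k x i) j)) k = x by
        rw [update_of_ne hkj, update_of_ne hki]; simp)
    refine (Runs.loop_cons hx h1 h2).congr rfl ?_ ?_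
    · funext r
      clear ih h1 h2
      simp only [update_apply]
      split_ifs <;> simp_all
    · simp only [List.length_cons]
      omega

end Proc

end Pool.Agent.Lib.Cx
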