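import Pool.Agent.Lib.Cx.Pred

/-!
Every function computed in polynomial time by a `FinTM2` is `PT`: an interpreter.
Hence `PT f ↔ IsPolyTime f`.
-/

namespace Pool.Agent.Lib.Cx

open Function N487b59b3 Turing Turing.TM2

/-- An encoding of a finite type. -/
@[instance_reducible]
noncomputable def finEnc (ι : Type) [Finite ι] : Enc ι :=
  mkEnc (fun i => enc ((Finite.equivFin ι i : Fin _) : ℕ)) (fun _ _ h =>
    (Finite.equivFin ι).injective (Fin.ext (enc_injective h)))

/-- An encoding of functions on a finite type. -/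
@[instance_reducible]
noncomputable def piEnc (ι β : Type) [Fintype ι] [Enc β] : Enc (ι → β) :=
  mkEnc (fun g => enc ((Finset.univ : Finset ι).toList.map g)) (fun _ _ h => by
    have := enc_injective h
    funext i
    exact List.map_inj_left.1 this i (by simp))

theorem exists_size_bound (ι : Type) [Finite ι] [Enc ι] : ∃ c, ∀ i : ι, size i ≤ c := by
  obtain ⟨c, hc⟩ := (Set.finite_range (size : ι → ℕ)).bddAbove
  exact ⟨c, fun i => hc ⟨i, rfl⟩⟩

section pi

variable {α β ι : Type} [Enc α] [Enc β] [Fintype ι]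

attribute [local instance] piEnc

theorem enc_pi (g : ι → β) : enc g = enc ((Finset.univ : Finset ι).toList.map g) := rfl

theorem PT.pi {g : α → ι → β} (h : ∀ i, PT (fun x => g x i)) : PT g :=
  PT.mapConst (Finset.univ : Finset ι).toList (f := fun i x => g x i) (fun i _ => h i)

theorem PT.piApply {g : α → ι → β} (h : PT g) (i : ι) : PT (fun x => g x i) := by
  classical
  have h1 : PT (fun x => (Finset.univ : Finset ι).toList.map (g x)) := h
  have h2 : ∀ x, some (g x i) = ((Finset.univ : Finset ι).toList.map (g x))[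
      (Finset.univ : Finset ι).toList.idxOf i]? := by
    intro x
    rw [List.getElem?_map, List.getElem?_idxOf (by simp)]
    rfl
  have h3 : PT (fun x => some (g x i)) := (PT.getElem? h1 (PT.const _)).of_eq h2
  cases isEmpty_or_nonempty α with
  | inl h => exact ⟨Proc.skip, 0, fun a => h.elim a⟩
  | inr h => exact PT.getD h3 (PT.const (g h.some i))

theorem PT.piUpdate [DecidableEq ι] {g : α → ι → β} {v : α → β} (h : PT g) (i : ι) (hv : PT v) :
    PT (fun x => update (g x) i (v x)) := by
  refine PT.pi fun j => ?_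
  by_cases hj : j = i
  · subst hj; exact hv.of_eq (by simp)
  · exact (h.piApply j).of_eq (fun x => update_of_ne hj _ _)

theorem size_pi_le (g : ι → β) (M : ℕ) (h : ∀ i, size (g i) ≤ M) :
    size g ≤ Fintype.card ι * (2 * M + 1) := by
  have := size_list_le ((Finset.univ : Finset ι).toList.map g) M (by simpa using h)
  rw [List.length_map, Finset.length_toList] at this
  exact this

end pi

section sim

variable {K : Type} [DecidableEq K] {Γ : K → Type} {Λ σ B : Type}

/-- The symbols a statement can push. -/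
def pushed : Stmt Γ Λ σ → Set (Σ k, Γ k)
  | Stmt.push k f q => Set.range (fun v => ⟨k, f v⟩) ∪ pushed q
  | Stmt.peek _ _ q => pushed q
  | Stmt.pop _ _ q => pushed q
  | Stmt.load _ q => pushed q
  | Stmt.branch _ q1 q2 => pushed q1 ∪ pushed q2
  | Stmt.goto _ => ∅
  | Stmt.halt => ∅

omit [DecidableEq K] in
theorem pushed_finite [Finite σ] (q : Stmt Γ Λ σ) : (pushed q).Finite := by
  induction q with
  | push k f q ih => exact (Set.finite_range _).union ih
  | peek _ _ q ih => exact ih
  | pop _ _ q ih => exact ih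
  | load _ q ih => exact ih
  | branch _ q1 q2 ih1 ih2 => exact ih1.union ih2
  | goto _ => exact Set.finite_empty
  | halt => exact Set.finite_empty

/-- A bound on the number of pushes of a statement. -/
def pushes : Stmt Γ Λ σ → ℕ
  | Stmt.push _ _ q => pushes q + 1
  | Stmt.peek _ _ q => pushes q
  | Stmt.pop _ _ q => pushes q
  | Stmt.load _ q => pushes q
  | Stmt.branch _ q1 q2 => pushes q1 + pushes q2
  | Stmt.goto _ => 0
  | Stmt.halt => 0

/-- Execution of a statement on coded stacks. -/
def simStmt (cd : (Σ k, Γ k) → B) (dc : ∀ k, B → Option (Γ k)) :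
    Stmt Γ Λ σ → σ × (K → List B) → Option Λ × σ × (K → List B)
  | Stmt.push k f q, s => simStmt cd dc q (s.1, update s.2 k (cd ⟨k, f s.1⟩ :: s.2 k))
  | Stmt.peek k f q, s => simStmt cd dc q (f s.1 ((s.2 k).head?.bind (dc k)), s.2)
  | Stmt.pop k f q, s =>
      simStmt cd dc q (f s.1 ((s.2 k).head?.bind (dc k)), update s.2 k (s.2 k).tail)
  | Stmt.load a q, s => simStmt cd dc q (a s.1, s.2)
  | Stmt.branch f q1 q2, s => bif f s.1 then simStmt cd dc q1 s else simStmt cd dc q2 s
  | Stmt.goto f, s => (some (f s.1), s)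
  | Stmt.halt, s => (none, s)

theorem simStmt_length (cd : (Σ k, Γ k) → B) (dc : ∀ k, B → Option (Γ k)) (q : Stmt Γ Λ σ)
    (s : σ × (K → List B)) (j : K) :
    ((simStmt cd dc q s).2.2 j).length ≤ (s.2 j).length + pushes q := by
  induction q generalizing s with
  | push k f q ih =>
    refine (ih _).trans ?_
    simp only [pushes, update_apply]
    split_ifs with h
    · subst h; simp; omega
    · omega
  | peek k f q ih => exact ih _
  | pop k f q ih =>
    refine (ih _).trans ?_
    simp only [pushes, update_apply]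
    split_ifs with h
    · subst h; simp
    · omega
  | load a q ih => exact ih _
  | branch f q1 q2 ih1 ih2 =>
    have h1 := ih1 s
    have h2 := ih2 s
    simp only [simStmt, pushes]
    cases f s.1 <;> simp <;> omega
  | goto f => simp [simStmt]
  | halt => simp [simStmt]

/-- Coded stacks. -/
def codeStk (cd : (Σ k, Γ k) → B) (S : ∀ k, List (Γ k)) : K → List B :=
  fun k => (S k).map (fun x => cd ⟨k, x⟩)

theorem codeStk_update (cd : (Σ k, Γ k) → B) (S : ∀ k, List (Γ k)) (k : K) (l : List (Γ k)) :
    codeStk cd (update S k l) = update (codeStk cd S) k (l.map (fun x => cd ⟨k, x⟩)) := by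
  funext j
  by_cases h : j = k
  · subst h; simp [codeStk]
  · simp [codeStk, update_of_ne h]

theorem simStmt_spec (cd : (Σ k, Γ k) → B) (dc : ∀ k, B → Option (Γ k)) (T : Set (Σ k, Γ k))
    (hT : ∀ k x, ⟨k, x⟩ ∈ T → dc k (cd ⟨k, x⟩) = some x) (q : Stmt Γ Λ σ) (hq : pushed q ⊆ T)
    (v : σ) (S : ∀ k, List (Γ k)) (hS : ∀ k, ∀ x ∈ S k, (⟨k, x⟩ : Σ k, Γ k) ∈ T) :
    simStmt cd dc q (v, codeStk cd S) =
      ((stepAux q v S).l, (stepAux q v S).var, codeStk cd (stepAux q v S).stk) ∧
    ∀ k, ∀ x ∈ (stepAux q v S).stk k, (⟨k, x⟩ : Σ k, Γ k) ∈ T := by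
  have hh : ∀ (S : ∀ k, List (Γ k)), (∀ k, ∀ x ∈ S k, (⟨k, x⟩ : Σ k, Γ k) ∈ T) → ∀ k,
      (codeStk cd S k).head?.bind (dc k) = (S k).head? := by
    intro S hS k
    have := hS k
    unfold codeStk
    cases h : S k with
    | nil => rfl
    | cons a t => simpa using hT k a (this a (by simp [h]))
  induction q generalizing v S with
  | push k f q ih =>
    have := ih (fun x hx => hq (Or.inr hx)) v (update S k (f v :: S k)) (by
      intro j x hx
      by_cases h : j = k
      · subst h
        simp only [update_self, List.mem_cons] at hx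
        rcases hx with rfl | hx
        · exact hq (Or.inl ⟨v, rfl⟩)
        · exact hS _ _ hx
      · rw [update_of_ne h] at hx; exact hS _ _ hx)
    rw [codeStk_update] at this
    exact this
  | peek k f q ih =>
    have := ih hq (f v (S k).head?) S hS
    simp only [simStmt, hh S hS]
    exact this
  | pop k f q ih =>
    have := ih hq (f v (S k).head?) (update S k (S k).tail) (by
      intro j x hx
      by_cases h : j = k
      · subst h
        simp only [update_self] at hx
        exact hS _ _ (List.mem_of_mem_tail hx)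
      · rw [update_of_ne h] at hx; exact hS _ _ hx)
    rw [codeStk_update, List.map_tail] at this
    simp only [simStmt, hh S hS]
    exact this
  | load a q ih => exact ih hq (a v) S hS
  | branch f q1 q2 ih1 ih2 =>
    have h1 := ih1 (fun x hx => hq (Or.inl hx)) v S hS
    have h2 := ih2 (fun x hx => hq (Or.inr hx)) v S hS
    simp only [simStmt, stepAux]
    cases f v
    · exact h2
    · exact h1
  | goto f => exact ⟨rfl, hS⟩
  | halt => exact ⟨rfl, hS⟩

attribute [local instance] piEnc

theorem simStmt_pt [Fintype K] [Finite σ] [Finite B] [Enc Λ] [Enc σ] [Enc B]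
    (cd : (Σ k, Γ k) → B) (dc : ∀ k, B → Option (Γ k)) (q : Stmt Γ Λ σ) :
    PT (simStmt cd dc q) := by
  have h2 : PT (fun s : σ × (K → List B) => s.2) := by fun_prop
  have h1 : PT (fun s : σ × (K → List B) => s.1) := by fun_prop
  have h3 : ∀ (k : K) (f : σ → Option (Γ k) → σ),
      PT (fun s : σ × (K → List B) => f s.1 ((s.2 k).head?.bind (dc k))) := fun k f =>
    (PT.of_finite (fun z : σ × Option B => f z.1 (z.2.bind (dc k)))).comp'
      (PT.prodMk h1 (h2.piApply k).head?)
  induction q with
  | push k f q ih =>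
    exact ih.comp' (PT.prodMk h1 (h2.piUpdate k
      (PT.cons ((PT.of_finite (fun v => cd ⟨k, f v⟩)).comp' h1) (h2.piApply k))))
  | peek k f q ih => exact ih.comp' (PT.prodMk (h3 k f) h2)
  | pop k f q ih => exact ih.comp' (PT.prodMk (h3 k f) (h2.piUpdate k (h2.piApply k).tail))
  | load a q ih => exact ih.comp' (PT.prodMk ((PT.of_finite a).comp' h1) h2)
  | branch f q1 q2 ih1 ih2 => exact PT.cond ((PT.of_finite f).comp' h1) ih1 ih2
  | goto f => exact PT.prodMk ((PT.of_finite (fun v => some (f v))).comp' h1) PT.id'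
  | halt => exact PT.prodMk (PT.const _) PT.id'

/-- One step on coded configurations; halted configurations stay put. -/
def simStep (cd : (Σ k, Γ k) → B) (dc : ∀ k, B → Option (Γ k)) (m : Λ → Stmt Γ Λ σ)
    (c : Option Λ × σ × (K → List B)) : Option Λ × σ × (K → List B) :=
  c.1.elim c (fun l => simStmt cd dc (m l) c.2)

theorem simStep_iter (cd : (Σ k, Γ k) → B) (dc : ∀ k, B → Option (Γ k)) (T : Set (Σ k, Γ k))
    (hT : ∀ k x, ⟨k, x⟩ ∈ T → dc k (cd ⟨k, x⟩) = some x) (m : Λ → Stmt Γ Λ σ)
    (hm : ∀ l, pushed (m l) ⊆ T) (n : ℕ) (c c' : Cfg Γ Λ σ)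
    (hS : ∀ k, ∀ x ∈ c.stk k, (⟨k, x⟩ : Σ k, Γ k) ∈ T)
    (h : (flip bind (step m))^[n] (some c) = some c') :
    (simStep cd dc m)^[n] (c.l, c.var, codeStk cd c.stk) = (c'.l, c'.var, codeStk cd c'.stk) ∧
      ∀ k, ∀ x ∈ c'.stk k, (⟨k, x⟩ : Σ k, Γ k) ∈ T := by
  induction n generalizing c with
  | zero =>
    obtain rfl : c = c' := by simpa using h
    exact ⟨rfl, hS⟩
  | succ n ih =>
    rw [Function.iterate_succ_apply] at h ⊢
    obtain ⟨l, v, S⟩ := c
    cases l with
    | none =>
      exfalso
      have : (flip bind (step m))^[n] (none : Option (Cfg Γ Λ σ)) = none :=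
        Function.iterate_fixed rfl n
      change (flip bind (step m))^[n] none = _ at h
      rw [this] at h
      cases h
    | some l =>
      obtain ⟨e1, e2⟩ := simStmt_spec cd dc T hT (m l) (hm l) v S hS
      have := ih (stepAux (m l) v S) e2 h
      simp only [simStep, Option.elim, e1]
      exact this

theorem simStep_length (cd : (Σ k, Γ k) → B) (dc : ∀ k, B → Option (Γ k)) (m : Λ → Stmt Γ Λ σ)
    (D : ℕ) (hD : ∀ l, pushes (m l) ≤ D) (n : ℕ) (c : Option Λ × σ × (K → List B)) (j : K) :
    (((simStep cd dc m)^[n] c).2.2 j).length ≤ (c.2.2 j).length + n * D := by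
  induction n with
  | zero => simp
  | succ n ih =>
    rw [Function.iterate_succ_apply']
    generalize (simStep cd dc m)^[n] c = c1 at ih
    obtain ⟨l, s⟩ := c1
    cases l with
    | none => simp only [simStep, Option.elim] at ih ⊢; nlinarith
    | some l =>
      have := simStmt_length cd dc (m l) s j
      have := hD l
      simp only [simStep, Option.elim] at ih ⊢; nlinarith

omit [DecidableEq K] in
theorem exists_code (T : Set (Σ k, Γ k)) (hT : T.Finite) :
    ∃ (B : Type) (_ : Finite B) (cd : (Σ k, Γ k) → B) (dc : ∀ k, B → Option (Γ k)),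
      ∀ k x, ⟨k, x⟩ ∈ T → dc k (cd ⟨k, x⟩) = some x := by
  classical
  have := hT.to_subtype
  refine ⟨Option T, inferInstance, fun a => if h : a ∈ T then some ⟨a, h⟩ else none,
    fun k b => b.bind (fun a => if h : a.1.1 = k then some (h ▸ a.1.2) else none), ?_⟩
  intro k x hx
  simp [hx]

end sim

attribute [local instance] piEnc in
theorem Cmp.ofTM2 {α γ : Type} {ea : α → List Bool} {eb : γ → List Bool} {f : α → γ}
    (h : TM2ComputableInPolyTime ea eb f) : Cmp ea (fun a => eb (f a)) := by
  obtain ⟨⟨tm, ia, oa⟩, p, hp⟩ := h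
  have := tm.kFin
  have := tm.ΛFin
  have := tm.σFin
  have := tm.Γk₀Fin
  let T : Set (Σ k, tm.Γ k) := Set.range (fun x => ⟨tm.k₀, x⟩) ∪ ⋃ l, pushed (tm.m l)
  obtain ⟨B, hB, cd, dc, hT⟩ := exists_code T
    ((Set.finite_range _).union (Set.finite_iUnion fun l => pushed_finite _))
  let _ : Enc B := finEnc B
  let _ : Enc tm.Λ := finEnc _
  let _ : Enc tm.σ := finEnc _
  obtain ⟨D, hD⟩ := (Set.finite_range (fun l => pushes (tm.m l))).bddAbove
  obtain ⟨cB, hcB⟩ := exists_size_bound B
  obtain ⟨cL, hcL⟩ := exists_size_bound (Option tm.Λ)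
  obtain ⟨cS, hcS⟩ := exists_size_bound tm.σ
  let ini : List Bool → Option tm.Λ × tm.σ × (tm.K → List B) := fun x =>
    (some tm.main, tm.initialState,
      update (fun _ => []) tm.k₀ (x.map fun b => cd ⟨tm.k₀, ia.symm b⟩))
  have hini : PT ini := PT.prodMk (PT.const _) (PT.prodMk (PT.const _)
    (PT.piUpdate (PT.const _) _ (PT.map
      ((PT.of_finite (fun b => cd ⟨tm.k₀, ia.symm b⟩)).comp' (by fun_prop)) PT.id')))
  have hstep : PT (simStep cd dc tm.m) := by
    refine (PT.finCases (c := fun c : Option tm.Λ × tm.σ × (tm.K → List B) => c.1)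
      (f := fun o c => o.elim c (fun l => simStmt cd dc (tm.m l) c.2)) (by fun_prop) ?_)
    rintro (_ | l)
    · exact PT.id'
    · exact (simStmt_pt cd dc (tm.m l)).comp' (by fun_prop)
  have hrun : PT (fun x => (simStep cd dc tm.m)^[p.eval x.length] (ini x)) := by
    refine PT.iterate (f := fun _ => simStep cd dc tm.m) (hstep.comp' (by fun_prop))
      (by fun_prop) (by fun_prop) hini
      (fun x => 2 * cL + 1 + (2 * cS + 1 + Fintype.card tm.K *
        (2 * ((x.length + p.eval x.length * D) * (2 * cB + 1)) + 1))) (by fun_prop)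
      fun x i hi => ?_
    have h1 := simStep_length cd dc tm.m D (fun l => hD ⟨l, rfl⟩) i (ini x)
    generalize (simStep cd dc tm.m)^[i] (ini x) = c at h1
    have h2 := size_pi_le c.2.2 ((x.length + p.eval x.length * D) * (2 * cB + 1)) fun k => by
      refine (size_list_le _ cB (fun a _ => hcB a)).trans (Nat.mul_le_mul_right _ ?_)
      refine (h1 k).trans (Nat.add_le_add ?_ (Nat.mul_le_mul_right _ hi))
      simp only [ini, update_apply]
      split_ifs <;> simp
    have h3 := hcL c.1
    have h4 := hcS c.2.1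
    simp only [size_prod]
    omega
  have hout : PT (fun x => ((((simStep cd dc tm.m)^[p.eval x.length] (ini x)).2.2 tm.k₁).map
      (fun y => ((dc tm.k₁ y).map oa).getD false))) :=
    PT.map ((PT.of_finite (fun y => ((dc tm.k₁ y).map oa).getD false)).comp' (by fun_prop))
      (hrun.snd.snd.piApply _)
  have h1 : Cmp ea (fun a => enc (ea a)) :=
    (Cmp.refl.flatMap _).congr (fun _ => rfl) (fun _ => enc_listBool _)
  refine ((h1.trans (Cmp.reindex (PT.toRaw.comp' hout) ea))).congr (fun _ => rfl) fun a => ?_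
  change eb (f a) = ((((simStep cd dc tm.m)^[p.eval (ea a).length] (ini (ea a))).2.2 tm.k₁).map
      (fun y => ((dc tm.k₁ y).map oa).getD false))
  obtain ⟨⟨n, hn⟩, hle⟩ := hp a
  simp only at hle
  have hv : ∀ k, ∀ x ∈ (initList tm (List.map ia.invFun (ea a))).stk k,
      (⟨k, x⟩ : Σ k, tm.Γ k) ∈ T := by
    intro k x hx
    by_cases hk : k = tm.k₀
    · subst hk; exact Or.inl ⟨x, rfl⟩
    · simp [initList, hk] at hx
  obtain ⟨e1, e2⟩ := simStep_iter cd dc T hT tm.m
    (fun l => (Set.subset_iUnion (fun l => pushed (tm.m l)) l).trans Set.subset_union_right)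
    n _ _ hv hn
  have e3 : ini (ea a) = ((initList tm (List.map ia.invFun (ea a))).l,
      (initList tm (List.map ia.invFun (ea a))).var,
      codeStk cd (initList tm (List.map ia.invFun (ea a))).stk) := by
    refine Prod.ext rfl (Prod.ext rfl ?_)
    funext k
    by_cases hk : k = tm.k₀
    · subst hk; simp [ini, initList, codeStk]
    · simp [ini, initList, codeStk, hk]
  obtain ⟨d, hd⟩ := Nat.exists_eq_add_of_le hle
  rw [hd, add_comm, Function.iterate_add_apply, e3, e1, Function.iterate_fixed rfl]
  have e4 : (haltList tm (List.map oa.invFun (eb (f a)))).stk tm.k₁ =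
      List.map oa.invFun (eb (f a)) := by simp [haltList]
  have e5 := e2 tm.k₁
  simp only [codeStk]
  rw [e4] at e5 ⊢
  rw [List.map_map, List.map_map]
  conv_lhs => rw [← List.map_id (eb (f a))]
  refine List.map_congr_left fun b hb => ?_
  have := hT _ _ (e5 (oa.invFun b) (List.mem_map_of_mem hb))
  simp only [Function.comp, this]
  simp

variable {α β : Type} [Enc α] [Enc β]

theorem PT.of_isPolyTime {f : α → β} (h : N68a2faeb.IsPolyTime f) : PT f :=
  Cmp.ofTM2 h.some

theorem pt_iff_isPolyTime {f : α → β} : PT f ↔ N68a2faeb.IsPolyTime f :=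
  ⟨PT.isPolyTime, PT.of_isPolyTime⟩

end Pool.Agent.Lib.Cx
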